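import Pool.Agent.Y561.MT.Gen

/-!
Abstract version: the classification of the additive group topologies with continuous left
multiplications in which the ideal is open.
-/

open Set Filter Topology

noncomputable section

namespace Pool.Agent.Y561.MT

variable {k V R : Type} [Field k] [AddCommGroup V] [Module k V] [Ring R] {j : V →+ R}

/-- finitely many translates of the trace on `V` of a neighbourhood of zero cover `V` -/
theorem syndetic_gen [Finite k] (h : IsFullIdeal k j) (b : Module.Basis ℕ k V)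
    (t : TopologicalSpace R) (ht : IsLeftTopology t)
    (hnd : ∀ U ∈ @nhds R t 0, ∃ v : V, v ≠ 0 ∧ j v ∈ U) (W : Set R)
    (hW : W ∈ @nhds R t 0) : ∃ F : Finset V, ∀ v : V, ∃ f ∈ F, j (f + v) ∈ W := by
  by_contra hcon
  push Not at hcon
  have hgr := ht.group
  have hleft := ht.2
  choose r hr using h.full
  let _ := t
  let W1 : Set R := {x | ∀ c : k, r (c • (1 : Module.End k V)) * x ∈ W}
  have hmul : ∀ g : Module.End k V, (fun x : R => r g * x) ⁻¹' W ∈ 𝓝 (0 : R) := by
    intro g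
    have hcont : Continuous fun x : R => r g * x := hleft (r g)
    apply hcont.continuousAt.preimage_mem_nhds
    rw [mul_zero]
    exact hW
  have hW1 : W1 ∈ 𝓝 (0 : R) := by
    have : W1 = ⋂ c : k, (fun x : R => r (c • (1 : Module.End k V)) * x) ⁻¹' W := by
      ext x; simp [W1]
    rw [this]
    exact (Filter.iInter_mem).2 fun c => hmul _
  obtain ⟨g, hg⟩ := exists_op b {v | j v ∈ W1} (by
    intro F
    obtain ⟨v, hv⟩ := hcon F
    refine ⟨v, fun f hf c hc hmem => hv f hf ?_⟩
    have h1 := hmem c⁻¹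
    rw [hr] at h1
    simpa [smul_smul, inv_mul_cancel₀ hc] using h1)
  have hcont : Continuous fun x : R => r g * x := hleft (r g)
  have h1 : (fun x : R => r g * x) ⁻¹' W1 ∈ 𝓝 (0 : R) := by
    apply hcont.continuousAt.preimage_mem_nhds
    rw [mul_zero]
    exact hW1
  obtain ⟨v, hv, hv1⟩ := hnd _ h1
  apply hg v hv
  show j (g v) ∈ W1
  rw [← hr]
  exact hv1

/-- a non-discrete topology with the ideal open is not discrete on the ideal -/
theorem not_discrete_on (t : TopologicalSpace R) (ht : IsLeftTopology t)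
    (hB : Set.range j ∈ @nhds R t 0) (hd : t ≠ ⊥) :
    ∀ U ∈ @nhds R t 0, ∃ v : V, v ≠ 0 ∧ j v ∈ U := by
  intro U hU
  by_contra hcon
  push Not at hcon
  apply hd
  apply eq_bot_of_mem' t ht.group
  filter_upwards [hU, hB] with x hx1 hx2
  obtain ⟨v, rfl⟩ := hx2
  by_contra hne
  exact hcon v (fun h0 => hne (by rw [h0, map_zero]; rfl)) hx1

/-- every neighbourhood of zero contains a subspace of finite index of `V` -/
theorem coarse_gen [Finite k] (h : IsFullIdeal k j) (b : Module.Basis ℕ k V)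
    (t : TopologicalSpace R) (ht : IsLeftTopology t)
    (hnd : ∀ U ∈ @nhds R t 0, ∃ v : V, v ≠ 0 ∧ j v ∈ U) (W : Set R)
    (hW : W ∈ @nhds R t 0) :
    ∃ M : Submodule k V, Finite (V ⧸ M) ∧ ∀ v ∈ M, j v ∈ W := by
  classical
  have hgr := ht.group
  let _ := t
  obtain ⟨W1, hW1, h1⟩ := exists_nhds_half_neg hW
  obtain ⟨W2, hW2, h2⟩ : ∃ W2 ∈ 𝓝 (0 : R), ∀ x ∈ W2, ∀ y ∈ W2, x + y ∈ W1 := by
    obtain ⟨V', hV', h⟩ := exists_nhds_zero_half hW1
    exact ⟨V', hV', h⟩
  obtain ⟨F, hF⟩ := syndetic_gen h b t ht hnd W2 hW2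
  obtain ⟨M, hM, hMW⟩ := exists_submodule (k := k) {v : V | j v ∈ W2}
    (F.image fun f => -f) (by
      intro v
      obtain ⟨f, hf, hfv⟩ := hF v
      refine ⟨-f, Finset.mem_image_of_mem _ hf, ?_⟩
      show j (v - -f) ∈ W2
      rwa [sub_neg_eq_add, add_comm])
  refine ⟨M, hM, fun v hv => ?_⟩
  obtain ⟨a, ha, b', hb, c, hc, d, hd', h⟩ := hMW v hv
  rw [h]
  have h3 : j (a + b' - c - d) = (j a + j b') - (j c + j d) := by
    rw [sub_sub, map_sub, map_add, map_add]
  rw [h3]
  exact h1 _ (h2 _ ha _ hb) _ (h2 _ hc _ hd')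

/-- If some neighbourhood of zero does not contain `V`, all subspaces of finite index are open. -/
theorem fine_gen [Finite k] (h : IsFullIdeal k j) (b : Module.Basis ℕ k V)
    (t : TopologicalSpace R) (ht : IsLeftTopology t)
    (hB : Set.range j ∈ @nhds R t 0) (hd : t ≠ ⊥) (v0 : V)
    (U0 : Set R) (hU0 : U0 ∈ @nhds R t 0) (hv0 : j v0 ∉ U0)
    (M : Submodule k V) (hM : Finite (V ⧸ M)) : j '' (M : Set V) ∈ @nhds R t 0 := by
  classical
  have : Fintype k := Fintype.ofFinite k
  have hgr := ht.group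
  have hleft := ht.2
  choose r hr using h.full
  let _ := t
  obtain ⟨W, hW, hWU⟩ := exists_nhds_zero_half hU0
  obtain ⟨M1, hM1, hM1W⟩ := coarse_gen h b t ht (not_discrete_on t ht hB hd) W hW
  -- the induced topology on `V`
  let tV : TopologicalSpace V := TopologicalSpace.induced j t
  have hind : Topology.IsInducing j := ⟨rfl⟩
  have hVg : IsTopologicalAddGroup V := topologicalAddGroup_induced j
  let C : AddSubgroup V := M1.toAddSubgroup.topologicalClosure
  have hCv0 : v0 ∉ C := by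
    intro hmem
    have h1 : v0 ∈ closure (M1.toAddSubgroup : Set V) := hmem
    rw [mem_closure_iff_nhds] at h1
    have h2 : {y : V | j (v0 - y) ∈ W} ∈ 𝓝 v0 := by
      have hc : Continuous fun y : V => j (v0 - y) :=
        hind.continuous.comp (continuous_const.sub continuous_id)
      apply hc.continuousAt.preimage_mem_nhds
      rw [sub_self, map_zero]
      exact hW
    obtain ⟨y, hy1, hy2⟩ := h1 _ h2
    apply hv0
    have h3 : j v0 = j (v0 - y) + j y := by
      rw [← map_add, sub_add_cancel]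
    rw [h3]
    exact hWU _ hy1 _ (hM1W _ hy2)
  have hCfin : Finite (V ⧸ C) := by
    have hle : M1.toAddSubgroup ≤ C := AddSubgroup.le_topologicalClosure _
    have : Finite (V ⧸ M1.toAddSubgroup) := hM1
    exact Finite.of_surjective (QuotientAddGroup.map _ C (AddMonoidHom.id V) hle)
      (QuotientAddGroup.map_surjective_of_surjective _ _ _
        (fun x => by
          obtain ⟨y, rfl⟩ := QuotientAddGroup.mk_surjective x
          exact ⟨y, rfl⟩) _)
  have hCopen : IsOpen (C : Set V) := by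
    have hcl : IsClosed (C : Set V) := AddSubgroup.isClosed_topologicalClosure _
    have : C.FiniteIndex := AddSubgroup.finiteIndex_of_finite_quotient
    exact C.isOpen_of_isClosed_of_finiteIndex hcl
  have hCn : ∀ᶠ x in 𝓝 (0 : R), x ∈ j '' (C : Set V) := by
    have h1 : (C : Set V) ∈ 𝓝 (0 : V) := hCopen.mem_nhds C.zero_mem
    rw [hind.nhds_eq_comap, Filter.mem_comap, map_zero] at h1
    obtain ⟨U, hU, hUC⟩ := h1
    filter_upwards [hU, hB] with x hx1 hx2
    obtain ⟨v, rfl⟩ := hx2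
    exact ⟨v, hUC hx1, rfl⟩
  -- the operators `x ↦ c φ(x) v0`
  have hop : ∀ g : Module.End k V, ∀ᶠ x in 𝓝 (0 : R), r g * x ∈ j '' (C : Set V) := by
    intro g
    have hcont : Continuous fun x : R => r g * x := hleft (r g)
    have h1 : ∀ᶠ x in 𝓝 (r g * (0 : R)), x ∈ j '' (C : Set V) := by
      rw [mul_zero]
      exact hCn
    exact (hcont.continuousAt (x := (0 : R))).eventually h1
  have hfinD : Finite (Module.Dual k (V ⧸ M)) := by
    have : Module.Finite k (V ⧸ M) := Module.Finite.of_finite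
    exact Module.finite_of_finite k
  let G : Module.Dual k (V ⧸ M) → k → Module.End k V := fun φ c =>
    LinearMap.smulRight (c • (φ ∘ₗ M.mkQ)) v0
  have hall : ∀ᶠ x in 𝓝 (0 : R), ∀ φ : Module.Dual k (V ⧸ M), ∀ c : k,
      r (G φ c) * x ∈ j '' (C : Set V) := by
    rw [Filter.eventually_all]
    intro φ
    rw [Filter.eventually_all]
    intro c
    exact hop (G φ c)
  filter_upwards [hall, hB] with x hx1 hx2
  obtain ⟨v, rfl⟩ := hx2
  refine ⟨v, ?_, rfl⟩
  show v ∈ M
  rw [← Submodule.Quotient.mk_eq_zero M]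
  rw [← Module.forall_dual_apply_eq_zero_iff k]
  intro φ
  by_contra hne
  have h1 := hx1 φ (φ (Submodule.Quotient.mk v))⁻¹
  rw [hr] at h1
  obtain ⟨w, hw, hwe⟩ := h1
  have h2 : w = G φ (φ (Submodule.Quotient.mk v))⁻¹ v := h.inj hwe
  have h3 : G φ (φ (Submodule.Quotient.mk v))⁻¹ v = v0 := by
    show ((φ (Submodule.Quotient.mk v))⁻¹ • (φ ∘ₗ M.mkQ)) v • v0 = v0
    rw [LinearMap.smul_apply, LinearMap.comp_apply, Submodule.mkQ_apply, smul_eq_mul,
      inv_mul_cancel₀ hne, one_smul]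
  rw [h2, h3] at hw
  exact hCv0 hw

theorem trichotomy_gen [Finite k] (h : IsFullIdeal k j) (b : Module.Basis ℕ k V)
    (τ : TopologicalSpace R) (hτ : IsRingTopology τ)
    (hn : ∀ U : Set R, U ∈ @nhds R τ 0 ↔
        ∃ M : Submodule k V, Finite (V ⧸ M) ∧ ∀ v ∈ M, j v ∈ U)
    (t : TopologicalSpace R) (ht : IsLeftTopology t)
    (hB : Set.range j ∈ @nhds R t 0) :
    t = ⊥ ∨ t = τ ∨ ∀ U ∈ @nhds R t 0, Set.range j ⊆ U := by
  by_cases hd : t = ⊥
  · exact Or.inl hd
  right
  by_cases hall : ∀ U ∈ @nhds R t 0, Set.range j ⊆ U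
  · exact Or.inr hall
  left
  push Not at hall
  obtain ⟨U0, hU0, hnn⟩ := hall
  obtain ⟨_, ⟨v0, rfl⟩, hv0⟩ := Set.not_subset.1 hnn
  apply le_antisymm
  · apply le_of_nhds' _ _ ht.group hτ.isLeftTopology.group
    intro U hU
    obtain ⟨M, hM, hMU⟩ := (hn U).1 hU
    refine Filter.mem_of_superset (fine_gen h b t ht hB hd v0 U0 hU0 hv0 M hM) ?_
    rintro _ ⟨v, hv, rfl⟩
    exact hMU v hv
  · apply le_of_nhds' _ _ hτ.isLeftTopology.group ht.group
    intro U hU
    exact (hn U).2 (coarse_gen h b t ht (not_discrete_on t ht hB hd) U hU)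

/-- a topology which is not discrete on the ideal is coarser than the finite index topology -/
theorem dichotomy_gen [Finite k] (h : IsFullIdeal k j) (b : Module.Basis ℕ k V)
    (τ : TopologicalSpace R) (hτ : IsRingTopology τ)
    (hn : ∀ U : Set R, U ∈ @nhds R τ 0 ↔
        ∃ M : Submodule k V, Finite (V ⧸ M) ∧ ∀ v ∈ M, j v ∈ U)
    (t : TopologicalSpace R) (ht : IsLeftTopology t) :
    (∃ U ∈ @nhds R t 0, ∀ v : V, j v ∈ U → v = 0) ∨ τ ≤ t := by
  by_cases hdis : ∃ U ∈ @nhds R t 0, ∀ v : V, j v ∈ U → v = 0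
  · exact Or.inl hdis
  · right
    push Not at hdis
    apply le_of_nhds' _ _ hτ.isLeftTopology.group ht.group
    intro U hU
    refine (hn U).2 (coarse_gen h b t ht ?_ U hU)
    intro W hW
    obtain ⟨v, hv1, hv2⟩ := hdis W hW
    exact ⟨v, hv2, hv1⟩

/-- nothing lies strictly between the finite index topology and the discrete one -/
theorem maximal_gen [Finite k] (h : IsFullIdeal k j) (b : Module.Basis ℕ k V)
    (τ : TopologicalSpace R) (hτ : IsRingTopology τ)
    (hn : ∀ U : Set R, U ∈ @nhds R τ 0 ↔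
        ∃ M : Submodule k V, Finite (V ⧸ M) ∧ ∀ v ∈ M, j v ∈ U)
    (t : TopologicalSpace R) (ht : IsLeftTopology t) (hd : t ≠ ⊥) (hle : t ≤ τ) : t = τ := by
  have hB0 : Set.range j ∈ @nhds R τ 0 :=
    (hn _).2 ⟨⊤, (Tri.isFamily_finite (k := k) (V := V)).top, fun v _ => ⟨v, rfl⟩⟩
  have hB : Set.range j ∈ @nhds R t 0 := nhds_mono hle hB0
  refine le_antisymm hle (le_of_nhds' _ _ hτ.isLeftTopology.group ht.group ?_)
  intro U hU
  exact (hn U).2 (coarse_gen h b t ht (not_discrete_on t ht hB hd) U hU)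

theorem isFullIdeal_tri : IsFullIdeal k (Tri.incHom : V →+ Tri k V) where
  inj := Tri.inc_injective
  left r v := ⟨r.a v, by
    show r * Tri.inc v = Tri.inc _
    ext1 <;> simp⟩
  right r v := ⟨r.c • v, by
    show Tri.inc v * r = Tri.inc _
    ext1 <;> simp⟩
  full g := ⟨Tri.op g, fun v => Tri.op_mul_inc g v⟩

/-- a direct product with any ring -/
theorem isFullIdeal_prod {S : Type} [Ring S] (h : IsFullIdeal k j) :
    IsFullIdeal k ((AddMonoidHom.inl R S).comp j) where
  inj := by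
    intro x y hxy
    exact h.inj (congrArg Prod.fst hxy)
  left r v := by
    obtain ⟨w, hw⟩ := h.left r.1 v
    refine ⟨w, ?_⟩
    show r * (j v, 0) = (j w, 0)
    rw [← hw]
    exact Prod.ext rfl (mul_zero _)
  right r v := by
    obtain ⟨w, hw⟩ := h.right r.1 v
    refine ⟨w, ?_⟩
    show (j v, 0) * r = (j w, 0)
    rw [← hw]
    exact Prod.ext rfl (zero_mul _)
  full g := by
    obtain ⟨r, hr⟩ := h.full g
    refine ⟨(r, 0), fun v => ?_⟩
    show (r, 0) * (j v, 0) = (j (g v), 0)
    rw [← hr]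
    exact Prod.ext rfl (mul_zero _)

end Pool.Agent.Y561.MT
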