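import Mathlib

/-!
Bogolyubov's lemma for finite abelian groups, and its consequence for syndetic subsets of a
countable locally finite abelian group of finite exponent: if finitely many translates of `W`
cover `V`, then `W + W - W - W` contains a subgroup of finite index.
-/

open Finset

namespace Pool.Agent.Y561.MT

section Fourier

variable {G : Type*} [AddCommGroup G] [Fintype G] [DecidableEq G]

/-- the exponential sum of a finite set -/
noncomputable def hat (A : Finset G) (χ : AddChar G ℂ) : ℂ := ∑ a ∈ A, χ a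

theorem conj_hat (A : Finset G) (χ : AddChar G ℂ) :
    (starRingEnd ℂ) (hat A χ) = ∑ a ∈ A, χ (-a) := by
  unfold hat
  rw [map_sum]
  refine Finset.sum_congr rfl fun a _ => ?_
  rw [AddChar.map_neg_eq_conj]

theorem normSq_hat (A : Finset G) (χ : AddChar G ℂ) :
    ((‖hat A χ‖ ^ 2 : ℝ) : ℂ) = ∑ a ∈ A, ∑ b ∈ A, χ (a - b) := by
  have h : ((‖hat A χ‖ ^ 2 : ℝ) : ℂ) = hat A χ * (starRingEnd ℂ) (hat A χ) := by
    rw [Complex.mul_conj, Complex.normSq_eq_norm_sq]
  rw [h, conj_hat]
  unfold hat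
  rw [Finset.sum_mul_sum]
  refine Finset.sum_congr rfl fun a _ => Finset.sum_congr rfl fun b _ => ?_
  rw [sub_eq_add_neg, AddChar.map_add_eq_mul]

theorem parseval (A : Finset G) :
    ∑ χ : AddChar G ℂ, ‖hat A χ‖ ^ 2 = (Fintype.card G : ℝ) * A.card := by
  have h : ((∑ χ : AddChar G ℂ, ‖hat A χ‖ ^ 2 : ℝ) : ℂ) = ((Fintype.card G : ℝ) * A.card : ℝ) := by
    rw [Complex.ofReal_sum]
    simp_rw [normSq_hat]
    rw [Finset.sum_comm]
    have h1 : ∀ a ∈ A, ∑ χ : AddChar G ℂ, ∑ b ∈ A, χ (a - b) = (Fintype.card G : ℂ) := by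
      intro a ha
      rw [Finset.sum_comm]
      simp_rw [AddChar.sum_apply_eq_ite, sub_eq_zero]
      rw [Finset.sum_ite_eq]
      simp [ha]
    rw [Finset.sum_congr rfl h1]
    simp [mul_comm]
  exact_mod_cast h

theorem fourth (A : Finset G) (x : G)
    (hx : ∀ a ∈ A, ∀ b ∈ A, ∀ c ∈ A, ∀ d ∈ A, x ≠ a + b - c - d) :
    ∑ χ : AddChar G ℂ, ((‖hat A χ‖ ^ 4 : ℝ) : ℂ) * χ x = 0 := by
  have h : ∀ χ : AddChar G ℂ, ((‖hat A χ‖ ^ 4 : ℝ) : ℂ) * χ x
      = ∑ a ∈ A, ∑ c ∈ A, ∑ b ∈ A, ∑ d ∈ A, χ ((a - c) + (b - d) + x) := by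
    intro χ
    have h1 : ((‖hat A χ‖ ^ 4 : ℝ) : ℂ) = (∑ a ∈ A, ∑ c ∈ A, χ (a - c)) *
        (∑ b ∈ A, ∑ d ∈ A, χ (b - d)) := by
      rw [← normSq_hat, ← Complex.ofReal_mul]
      congr 1
      ring
    rw [h1, Finset.sum_mul, Finset.sum_mul]
    refine Finset.sum_congr rfl fun a _ => ?_
    rw [Finset.sum_mul, Finset.sum_mul]
    refine Finset.sum_congr rfl fun c _ => ?_
    rw [Finset.mul_sum, Finset.sum_mul]
    refine Finset.sum_congr rfl fun b _ => ?_
    rw [Finset.mul_sum, Finset.sum_mul]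
    refine Finset.sum_congr rfl fun d _ => ?_
    rw [AddChar.map_add_eq_mul, AddChar.map_add_eq_mul]
  simp_rw [h]
  rw [Finset.sum_comm]
  refine Finset.sum_eq_zero fun a ha => ?_
  rw [Finset.sum_comm]
  refine Finset.sum_eq_zero fun c hc => ?_
  rw [Finset.sum_comm]
  refine Finset.sum_eq_zero fun b hb => ?_
  rw [Finset.sum_comm]
  refine Finset.sum_eq_zero fun d hd => ?_
  rw [AddChar.sum_apply_eq_ite, if_neg]
  intro h0
  refine hx c hc d hd a ha b hb ?_
  have : x = -((a - c) + (b - d)) := eq_neg_of_add_eq_zero_right h0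
  rw [this]
  abel

/-- **Bogolyubov's lemma** -/
theorem bogo (A : Finset G) (m : ℕ) (hm : Fintype.card G ≤ m * A.card) :
    ∃ S : Finset (AddChar G ℂ), S.card ≤ 2 * m ^ 2 ∧
      ∀ x, (∀ χ ∈ S, χ x = 1) → ∃ a ∈ A, ∃ b ∈ A, ∃ c ∈ A, ∃ d ∈ A, x = a + b - c - d := by
  classical
  have hG : 0 < Fintype.card G := Fintype.card_pos
  have hmA : 0 < m * A.card := lt_of_lt_of_le hG hm
  have hm0 : 0 < m := Nat.pos_of_mul_pos_right hmA
  have hA0 : 0 < A.card := Nat.pos_of_mul_pos_left hmA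
  have hmR : (0 : ℝ) < m := by exact_mod_cast hm0
  have hAR : (0 : ℝ) < A.card := by exact_mod_cast hA0
  have hGR : (Fintype.card G : ℝ) ≤ m * A.card := by exact_mod_cast hm
  set θ : ℝ := (A.card : ℝ) ^ 2 / (2 * m) with hθ
  have hθ0 : 0 < θ := by positivity
  let S : Finset (AddChar G ℂ) := Finset.univ.filter fun χ => θ ≤ ‖hat A χ‖ ^ 2
  refine ⟨S, ?_, ?_⟩
  · have h1 : (S.card : ℝ) * θ ≤ (Fintype.card G : ℝ) * A.card := by
      rw [← parseval]
      calc (S.card : ℝ) * θ = ∑ χ ∈ S, θ := by rw [Finset.sum_const, nsmul_eq_mul]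
        _ ≤ ∑ χ ∈ S, ‖hat A χ‖ ^ 2 :=
            Finset.sum_le_sum fun χ hχ => (Finset.mem_filter.1 hχ).2
        _ ≤ ∑ χ : AddChar G ℂ, ‖hat A χ‖ ^ 2 :=
            Finset.sum_le_sum_of_subset_of_nonneg (Finset.subset_univ _)
              (fun _ _ _ => by positivity)
    have h2 : (Fintype.card G : ℝ) * A.card ≤ (2 * m ^ 2) * θ := by
      rw [hθ]
      have : (2 * (m : ℝ) ^ 2) * ((A.card : ℝ) ^ 2 / (2 * m)) = m * A.card * A.card := by
        field_simp
      rw [this]
      exact mul_le_mul_of_nonneg_right hGR hAR.le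
    have h3 : (S.card : ℝ) ≤ 2 * m ^ 2 := le_of_mul_le_mul_right (h1.trans h2) hθ0
    exact_mod_cast h3
  · intro x hx
    by_contra hcon
    push Not at hcon
    have h0 := fourth A x (fun a ha b hb c hc d hd => hcon a ha b hb c hc d hd)
    have h1 : ∑ χ : AddChar G ℂ, ‖hat A χ‖ ^ 4 * (χ x).re = 0 := by
      have h := congrArg Complex.re h0
      rw [Complex.re_sum, Complex.zero_re] at h
      rw [← h]
      exact Finset.sum_congr rfl fun χ _ => (Complex.re_ofReal_mul _ _).symm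
    rw [← Finset.sum_filter_add_sum_filter_not Finset.univ
      (fun χ : AddChar G ℂ => θ ≤ ‖hat A χ‖ ^ 2)] at h1
    have h2 : (A.card : ℝ) ^ 4 ≤ ∑ χ ∈ S, ‖hat A χ‖ ^ 4 * (χ x).re := by
      have hz : hat A 0 = A.card := by simp [hat]
      have hmem : (0 : AddChar G ℂ) ∈ S := by
        refine Finset.mem_filter.2 ⟨Finset.mem_univ _, ?_⟩
        rw [hz, Complex.norm_natCast, hθ]
        rw [div_le_iff₀ (by positivity)]
        have hm1 : (1 : ℝ) ≤ m := by exact_mod_cast hm0
        nlinarith [sq_nonneg (A.card : ℝ)]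
      have h3 : ‖hat A 0‖ ^ 4 * ((0 : AddChar G ℂ) x).re ≤
          ∑ χ ∈ S, ‖hat A χ‖ ^ 4 * (χ x).re := by
        refine Finset.single_le_sum (f := fun χ : AddChar G ℂ => ‖hat A χ‖ ^ 4 * (χ x).re)
          (fun χ hχ => ?_) hmem
        have : (χ x).re = 1 := by rw [hx χ hχ]; simp
        simp only [this, mul_one]
        positivity
      rw [hz, Complex.norm_natCast] at h3
      simpa using h3
    have h4 : -((A.card : ℝ) ^ 4 / 2) ≤ ∑ χ ∈ Finset.univ.filter
        (fun χ : AddChar G ℂ => ¬ θ ≤ ‖hat A χ‖ ^ 2), ‖hat A χ‖ ^ 4 * (χ x).re := by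
      have h5 : ∀ χ ∈ Finset.univ.filter (fun χ : AddChar G ℂ => ¬ θ ≤ ‖hat A χ‖ ^ 2),
          -(θ * ‖hat A χ‖ ^ 2) ≤ ‖hat A χ‖ ^ 4 * (χ x).re := by
        intro χ hχ
        have h6 : ‖hat A χ‖ ^ 2 < θ := not_le.1 (Finset.mem_filter.1 hχ).2
        have h7 : -1 ≤ (χ x).re := by
          have := Complex.abs_re_le_norm (χ x)
          rw [AddChar.norm_apply] at this
          exact (abs_le.1 this).1
        have h8 : ‖hat A χ‖ ^ 4 = ‖hat A χ‖ ^ 2 * ‖hat A χ‖ ^ 2 := by ring
        have h9 : 0 ≤ ‖hat A χ‖ ^ 2 := by positivity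
        rw [h8]
        nlinarith [mul_nonneg h9 h9, mul_nonneg h9 (sub_nonneg.2 h6.le)]
      have h6 : ∑ χ ∈ Finset.univ.filter (fun χ : AddChar G ℂ => ¬ θ ≤ ‖hat A χ‖ ^ 2),
          (θ * ‖hat A χ‖ ^ 2) ≤ (A.card : ℝ) ^ 4 / 2 := by
        calc _ ≤ ∑ χ : AddChar G ℂ, (θ * ‖hat A χ‖ ^ 2) :=
              Finset.sum_le_sum_of_subset_of_nonneg (Finset.subset_univ _)
                (fun _ _ _ => by positivity)
          _ = θ * ((Fintype.card G : ℝ) * A.card) := by rw [← Finset.mul_sum, parseval]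
          _ ≤ θ * (m * A.card * A.card) := by
              refine mul_le_mul_of_nonneg_left ?_ hθ0.le
              exact mul_le_mul_of_nonneg_right hGR hAR.le
          _ = (A.card : ℝ) ^ 4 / 2 := by rw [hθ]; field_simp
      have h7 := Finset.sum_le_sum h5
      rw [Finset.sum_neg_distrib] at h7
      linarith
    have h5 : (0 : ℝ) < (A.card : ℝ) ^ 4 := by positivity
    have h6 : ∑ χ ∈ S, ‖hat A χ‖ ^ 4 * (χ x).re = ∑ χ ∈ Finset.univ.filter
        (fun χ : AddChar G ℂ => θ ≤ ‖hat A χ‖ ^ 2), ‖hat A χ‖ ^ 4 * (χ x).re := rfl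
    rw [← h6] at h1
    linarith

end Fourier

/-- Bogolyubov's lemma in terms of a subgroup of bounded index -/
theorem bogo_subgroup {G : Type*} [AddCommGroup G] [Fintype G] [DecidableEq G]
    (n : ℕ) (hn : 0 < n) (hexp : ∀ x : G, n • x = 0)
    (A : Finset G) (m : ℕ) (hm : Fintype.card G ≤ m * A.card) :
    ∃ H : AddSubgroup G,
      (∀ (ι : Type) (_ : Fintype ι) (x : ι → G), n ^ (2 * m ^ 2) < Fintype.card ι →
        ∃ i j, i ≠ j ∧ x i - x j ∈ H) ∧
      ∀ x ∈ H, ∃ a ∈ A, ∃ b ∈ A, ∃ c ∈ A, ∃ d ∈ A, x = a + b - c - d := by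
  classical
  obtain ⟨S, hS, hSA⟩ := bogo A m hm
  let H : AddSubgroup G :=
    { carrier := {x | ∀ χ ∈ S, χ x = 1}
      zero_mem' := fun χ _ => AddChar.map_zero_eq_one χ
      add_mem' := fun {x y} hx hy χ hχ => by
        rw [AddChar.map_add_eq_mul, hx χ hχ, hy χ hχ, one_mul]
      neg_mem' := fun {x} hx χ hχ => by
        rw [AddChar.map_neg_eq_inv, hx χ hχ, inv_one] }
  refine ⟨H, ?_, fun x hx => hSA x hx⟩
  intro ι _ x hι
  let T : Finset (S → ℂ) := Fintype.piFinset fun _ : S => (Polynomial.nthRootsFinset n (1 : ℂ))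
  have hmaps : ∀ i ∈ (Finset.univ : Finset ι), (fun χ : S => χ.1 (x i)) ∈ T := by
    intro i _
    rw [Fintype.mem_piFinset]
    intro χ
    rw [Polynomial.mem_nthRootsFinset hn]
    rw [← AddChar.map_nsmul_eq_pow, hexp, AddChar.map_zero_eq_one]
  have hcard : T.card ≤ n ^ (2 * m ^ 2) := by
    rw [Fintype.card_piFinset, Finset.prod_const, Finset.card_univ, Fintype.card_coe]
    have h1 : (Polynomial.nthRootsFinset n (1 : ℂ)).card ≤ n := by
      unfold Polynomial.nthRootsFinset
      exact (Multiset.toFinset_card_le _).trans (Polynomial.card_nthRoots n 1)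
    calc (Polynomial.nthRootsFinset n (1 : ℂ)).card ^ S.card ≤ n ^ S.card :=
          Nat.pow_le_pow_left h1 _
      _ ≤ n ^ (2 * m ^ 2) := Nat.pow_le_pow_right hn hS
  obtain ⟨i, -, j, -, hij, hxy⟩ := Finset.exists_ne_map_eq_of_card_lt_of_maps_to
    (lt_of_le_of_lt hcard (by rw [Finset.card_univ]; exact hι)) hmaps
  refine ⟨i, j, hij, ?_⟩
  intro χ hχ
  have h1 : χ (x i) = χ (x j) := congrFun hxy ⟨χ, hχ⟩
  have h2 : χ (x i - x j) * χ (x j) = χ (x i) := by
    rw [← AddChar.map_add_eq_mul, sub_add_cancel]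
  have h3 : χ (x j) ≠ 0 := by
    intro h
    have := AddChar.norm_apply χ (x j)
    rw [h, norm_zero] at this
    exact zero_ne_one this
  rw [h1] at h2
  exact mul_right_cancel₀ h3 (by rw [h2, one_mul])

/-- **Limit form**: if finitely many translates of `W` cover a vector space `V` over a finite
field, then `W + W - W - W` contains a subspace of finite index. -/
theorem exists_submodule {k V : Type*} [Field k] [Finite k] [AddCommGroup V] [Module k V]
    (W : Set V) (F : Finset V) (hF : ∀ v, ∃ f ∈ F, v - f ∈ W) :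
    ∃ M : Submodule k V, Finite (V ⧸ M) ∧
      ∀ x ∈ M, ∃ a ∈ W, ∃ b ∈ W, ∃ c ∈ W, ∃ d ∈ W, x = a + b - c - d := by
  classical
  have : Fintype k := Fintype.ofFinite k
  set n : ℕ := Fintype.card k with hn
  have hn0 : 0 < n := Fintype.card_pos
  have hexp : ∀ x : V, n • x = 0 := by
    intro x
    have h : ((n : ℕ) : k) • x = 0 := by rw [hn, Nat.cast_card_eq_zero, zero_smul]
    rwa [Nat.cast_smul_eq_nsmul] at h
  set N : ℕ := n ^ (2 * F.card ^ 2) with hN
  -- the finite level
  have hlev : ∀ E : Finset V, ∃ H : AddSubgroup V,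
      (∀ (ι : Type) (_ : Fintype ι) (x : ι → V), (∀ i, x i ∈ Submodule.span k (E : Set V)) →
        N < Fintype.card ι → ∃ i j, i ≠ j ∧ x i - x j ∈ H) ∧
      ∀ x ∈ H, ∃ a ∈ W, ∃ b ∈ W, ∃ c ∈ W, ∃ d ∈ W, x = a + b - c - d := by
    intro E
    let P : Submodule k V := Submodule.span k (E : Set V)
    have : Module.Finite k P := Module.Finite.span_finset k E
    have : Finite P := Module.finite_of_finite k
    have : Fintype P := Fintype.ofFinite P
    let A : V → Finset P := fun f => Finset.univ.filter fun v : P => (v : V) - f ∈ W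
    have hcov : (Finset.univ : Finset P) ⊆ F.biUnion A := by
      intro v _
      obtain ⟨f, hf, hv⟩ := hF v
      exact Finset.mem_biUnion.2 ⟨f, hf, Finset.mem_filter.2 ⟨Finset.mem_univ _, hv⟩⟩
    have hcard : Fintype.card P ≤ ∑ f ∈ F, (A f).card := by
      rw [← Finset.card_univ]
      exact (Finset.card_le_card hcov).trans Finset.card_biUnion_le
    obtain ⟨f, hf, hfA⟩ : ∃ f ∈ F, Fintype.card P ≤ F.card * (A f).card := by
      by_contra hcon
      push Not at hcon
      have hFne : F.Nonempty := by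
        obtain ⟨f, hf, -⟩ := hF 0
        exact ⟨f, hf⟩
      have h1 : ∑ f ∈ F, F.card * (A f).card < ∑ f ∈ F, Fintype.card P :=
        Finset.sum_lt_sum_of_nonempty hFne hcon
      rw [Finset.sum_const, smul_eq_mul, ← Finset.mul_sum] at h1
      exact absurd (Nat.mul_le_mul_left F.card hcard) (not_le.2 h1)
    obtain ⟨H, hH1, hH2⟩ := bogo_subgroup (G := P) n hn0
      (fun x => Subtype.ext (by simpa using hexp (x : V))) (A f) F.card hfA
    refine ⟨H.map P.subtype.toAddMonoidHom, ?_, ?_⟩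
    · intro ι _ x hx hι
      obtain ⟨i, j, hij, hm⟩ := hH1 ι ‹_› (fun i => ⟨x i, hx i⟩) hι
      exact ⟨i, j, hij, ⟨_, hm, rfl⟩⟩
    · rintro _ ⟨x, hx, rfl⟩
      obtain ⟨a, ha, b, hb, c, hc, d, hd, h⟩ := hH2 x hx
      refine ⟨_, (Finset.mem_filter.1 ha).2, _, (Finset.mem_filter.1 hb).2,
        _, (Finset.mem_filter.1 hc).2, _, (Finset.mem_filter.1 hd).2, ?_⟩
      rw [h]
      show ((a : V) + b - c - d) = _
      abel
  choose H hH1 hH2 using hlev
  let U : Ultrafilter (Finset V) := Ultrafilter.of Filter.atTop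
  have hU : (U : Filter (Finset V)) ≤ Filter.atTop := Ultrafilter.of_le _
  let L : AddSubgroup V :=
    { carrier := {v | ∀ᶠ E in (U : Filter (Finset V)), v ∈ H E}
      zero_mem' := Filter.Eventually.of_forall fun E => (H E).zero_mem
      add_mem' := fun {x y} hx hy => by
        filter_upwards [hx, hy] with E h1 h2 using (H E).add_mem h1 h2
      neg_mem' := fun {x} hx => by
        filter_upwards [hx] with E h1 using (H E).neg_mem h1 }
  have hLW : ∀ x ∈ L, ∃ a ∈ W, ∃ b ∈ W, ∃ c ∈ W, ∃ d ∈ W, x = a + b - c - d := by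
    intro x hx
    obtain ⟨E, hE⟩ := Filter.Eventually.exists (f := (U : Filter (Finset V))) hx
    exact hH2 E x hE
  have hLfin : Finite (V ⧸ L) := by
    by_contra hinf
    rw [not_finite_iff_infinite] at hinf
    obtain ⟨g⟩ : Nonempty (Fin (N + 1) ↪ V ⧸ L) :=
      ⟨(Fin.valEmbedding).trans (Infinite.natEmbedding (V ⧸ L))⟩
    choose x hx using fun i => QuotientAddGroup.mk_surjective (g i)
    have h1 : ∀ i j, i ≠ j → ∀ᶠ E in (U : Filter (Finset V)), x i - x j ∉ H E := by
      intro i j hij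
      rw [Ultrafilter.eventually_not]
      intro h
      apply hij
      apply g.injective
      rw [← hx i, ← hx j]
      rw [eq_comm, QuotientAddGroup.eq]
      have : x i - x j ∈ L := h
      rwa [sub_eq_neg_add] at this
    have h2 : ∀ᶠ E : Finset V in (U : Filter (Finset V)), ∀ i, x i ∈ Submodule.span k (E : Set V) := by
      apply hU
      filter_upwards [Filter.eventually_ge_atTop (Finset.univ.image x)] with E hE i
      exact Submodule.subset_span (hE (Finset.mem_image_of_mem x (Finset.mem_univ i)))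
    have h3 : ∀ᶠ E in (U : Filter (Finset V)), ∀ i j, i ≠ j → x i - x j ∉ H E := by
      rw [Filter.eventually_all]
      intro i
      rw [Filter.eventually_all]
      intro j
      by_cases hij : i = j
      · exact Filter.Eventually.of_forall fun E h => absurd hij h
      · filter_upwards [h1 i j hij] with E hE _ using hE
    obtain ⟨E, hE2, hE3⟩ := (h2.and h3).exists
    obtain ⟨i, j, hij, hm⟩ := hH1 E (Fin (N + 1)) inferInstance x hE2 (by simp)
    exact hE3 i j hij hm
  let M : Submodule k V :=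
    { carrier := {v | ∀ c : k, c • v ∈ L}
      zero_mem' := fun c => by rw [smul_zero]; exact L.zero_mem
      add_mem' := fun {x y} hx hy c => by rw [smul_add]; exact L.add_mem (hx c) (hy c)
      smul_mem' := fun a x hx c => by rw [smul_smul]; exact hx _ }
  refine ⟨M, ?_, ?_⟩
  · let φ : V ⧸ M → (k → V ⧸ L) := Quotient.lift (fun v c => (QuotientAddGroup.mk (c • v) : V ⧸ L))
      (by
        intro a b hab
        funext c
        have h1 : a - b ∈ M := by
          have := QuotientAddGroup.leftRel_apply.1 hab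
          have h2 := M.neg_mem this
          rwa [neg_add, neg_neg, ← sub_eq_add_neg] at h2
        rw [eq_comm, QuotientAddGroup.eq, ← sub_eq_neg_add, ← smul_sub]
        exact h1 c)
    apply Finite.of_injective φ
    intro a b
    refine Quotient.inductionOn₂ a b ?_
    intro x y h
    apply Quotient.sound
    apply QuotientAddGroup.leftRel_apply.2
    show -x + y ∈ M
    intro c
    have h1 := congrFun h c
    have h2 : (QuotientAddGroup.mk (c • x) : V ⧸ L) = QuotientAddGroup.mk (c • y) := h1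
    rw [QuotientAddGroup.eq] at h2
    rwa [smul_add, smul_neg]
  · intro x hx
    exact hLW x (by simpa using hx 1)

end Pool.Agent.Y561.MT
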