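import Pool.Agent.Y561.MT.Main

/-!
The classification of the ring topologies in which the ideal `V` is open, and the failure of
maximality for uncountable `V`.
-/

open Set Filter Topology

noncomputable section

namespace Pool.Agent.Y561.MT

open Tri

variable {k V : Type} [Field k] [AddCommGroup V] [Module k V]

/-- two ring topologies are comparable through their neighbourhoods of zero -/
theorem le_of_nhds {R : Type} [Ring R] (s t : TopologicalSpace R)
    (hs : @IsTopologicalRing R s _) (ht : @IsTopologicalRing R t _)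
    (h : ∀ U ∈ @nhds R t 0, U ∈ @nhds R s 0) : s ≤ t := by
  have hs' : @IsTopologicalAddGroup R s _ := @IsTopologicalRing.to_topologicalAddGroup R _ s hs
  have ht' : @IsTopologicalAddGroup R t _ := @IsTopologicalRing.to_topologicalAddGroup R _ t ht
  rw [le_iff_nhds]
  intro x U hU
  have h1 : @nhds R s x = Filter.map (fun y => x + y) (@nhds R s 0) := by
    have := @map_add_left_nhds_zero R s _ hs' x
    exact this.symm
  have h2 : @nhds R t x = Filter.map (fun y => x + y) (@nhds R t 0) := by
    have := @map_add_left_nhds_zero R t _ ht' x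
    exact this.symm
  rw [h2, Filter.mem_map] at hU
  rw [h1, Filter.mem_map]
  exact h _ hU

theorem range_inc_eq : Set.range (inc : V → Tri k V) = (B (⊤ : Submodule k V) : Set (Tri k V)) := by
  ext x
  constructor
  · rintro ⟨v, rfl⟩
    exact ⟨rfl, rfl, trivial⟩
  · intro hx
    exact ⟨x.v, (eq_inc_of_mem hx).symm⟩

/-- If some neighbourhood of zero does not contain `V`, all subspaces of finite index are open. -/
theorem fine [Finite k] (b : Module.Basis ℕ k V) (t : TopologicalSpace (Tri k V))
    (ht : @IsTopologicalRing (Tri k V) t _)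
    (hB : Set.range (inc : V → Tri k V) ∈ @nhds (Tri k V) t 0) (hd : t ≠ ⊥) (v0 : V)
    (U0 : Set (Tri k V)) (hU0 : U0 ∈ @nhds (Tri k V) t 0) (hv0 : (inc v0 : Tri k V) ∉ U0)
    (M : Submodule k V) (hM : Finite (V ⧸ M)) : (B M : Set (Tri k V)) ∈ @nhds (Tri k V) t 0 := by
  classical
  have : Fintype k := Fintype.ofFinite k
  let _ := t
  obtain ⟨W, hW, hWU⟩ := exists_nhds_zero_half hU0
  obtain ⟨M1, hM1, hM1W⟩ := coarse b t ht hB hd W hW
  -- the induced topology on `V`
  let tV : TopologicalSpace V := TopologicalSpace.induced inc t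
  have hind : Topology.IsInducing (inc : V → Tri k V) := ⟨rfl⟩
  have hVg : IsTopologicalAddGroup V := topologicalAddGroup_induced (incHom : V →+ Tri k V)
  let C : AddSubgroup V := M1.toAddSubgroup.topologicalClosure
  have hCv0 : v0 ∉ C := by
    intro hmem
    have h1 : v0 ∈ closure (M1.toAddSubgroup : Set V) := hmem
    rw [mem_closure_iff_nhds] at h1
    have h2 : {y : V | (inc (v0 - y) : Tri k V) ∈ W} ∈ 𝓝 v0 := by
      have hc : Continuous fun y : V => (inc (v0 - y) : Tri k V) :=
        hind.continuous.comp (continuous_const.sub continuous_id)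
      apply hc.continuousAt.preimage_mem_nhds
      rw [sub_self]
      exact hW
    obtain ⟨y, hy1, hy2⟩ := h1 _ h2
    apply hv0
    have h3 : (inc v0 : Tri k V) = inc (v0 - y) + inc y := by
      rw [← inc_add, sub_add_cancel]
    rw [h3]
    exact hWU _ hy1 _ (hM1W (inc_mem_B.2 hy2))
  have hCfin : Finite (V ⧸ C) := by
    have hle : M1.toAddSubgroup ≤ C := AddSubgroup.le_topologicalClosure _
    have : Finite (V ⧸ M1.toAddSubgroup) := hM1
    exact Finite.of_surjective (QuotientAddGroup.map _ C (AddMonoidHom.id V) hle)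
      (QuotientAddGroup.map_surjective_of_surjective _ _ _
        (fun x => by
          obtain ⟨y, rfl⟩ := QuotientAddGroup.mk_surjective x
          exact ⟨y, rfl⟩) _)
  have hCopen : IsOpen (C : Set V) := by
    have hcl : IsClosed (C : Set V) := AddSubgroup.isClosed_topologicalClosure _
    have : C.FiniteIndex := AddSubgroup.finiteIndex_of_finite_quotient
    exact C.isOpen_of_isClosed_of_finiteIndex hcl
  have hCn : ∀ᶠ x in 𝓝 (0 : Tri k V), x ∈ inc '' (C : Set V) := by
    have h1 : (C : Set V) ∈ 𝓝 (0 : V) := hCopen.mem_nhds C.zero_mem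
    rw [hind.nhds_eq_comap, Filter.mem_comap] at h1
    obtain ⟨U, hU, hUC⟩ := h1
    filter_upwards [hU, hB] with x hx1 hx2
    obtain ⟨v, rfl⟩ := hx2
    exact ⟨v, hUC hx1, rfl⟩
  -- the operators `x ↦ c φ(x) v0`
  have hop : ∀ g : Module.End k V, ∀ᶠ x in 𝓝 (0 : Tri k V), op g * x ∈ inc '' (C : Set V) := by
    intro g
    have hcont : Continuous fun x : Tri k V => op g * x := continuous_const.mul continuous_id
    have h1 : ∀ᶠ x in 𝓝 (op g * (0 : Tri k V)), x ∈ inc '' (C : Set V) := by
      rw [mul_zero]
      exact hCn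
    exact (hcont.continuousAt (x := (0 : Tri k V))).eventually h1
  have hfinD : Finite (Module.Dual k (V ⧸ M)) := by
    have : Module.Finite k (V ⧸ M) := Module.Finite.of_finite
    exact Module.finite_of_finite k
  let G : Module.Dual k (V ⧸ M) → k → Module.End k V := fun φ c =>
    LinearMap.smulRight (c • (φ ∘ₗ M.mkQ)) v0
  have hall : ∀ᶠ x in 𝓝 (0 : Tri k V), ∀ φ : Module.Dual k (V ⧸ M), ∀ c : k,
      op (G φ c) * x ∈ inc '' (C : Set V) := by
    rw [Filter.eventually_all]
    intro φ
    rw [Filter.eventually_all]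
    intro c
    exact hop (G φ c)
  filter_upwards [hall, hB] with x hx1 hx2
  obtain ⟨v, rfl⟩ := hx2
  refine inc_mem_B.2 ?_
  rw [← Submodule.Quotient.mk_eq_zero M]
  rw [← Module.forall_dual_apply_eq_zero_iff k]
  intro φ
  by_contra hne
  have h1 := hx1 φ (φ (Submodule.Quotient.mk v))⁻¹
  rw [op_mul_inc] at h1
  obtain ⟨w, hw, hwe⟩ := h1
  have h2 : w = G φ (φ (Submodule.Quotient.mk v))⁻¹ v := inc_injective hwe
  have h3 : G φ (φ (Submodule.Quotient.mk v))⁻¹ v = v0 := by
    show ((φ (Submodule.Quotient.mk v))⁻¹ • (φ ∘ₗ M.mkQ)) v • v0 = v0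
    rw [LinearMap.smul_apply, LinearMap.comp_apply, Submodule.mkQ_apply, smul_eq_mul,
      inv_mul_cancel₀ hne, one_smul]
  rw [h2, h3] at hw
  exact hCv0 hw

/-- the classification of the ring topologies in which `V` is open -/
theorem trichotomy [Finite k] (b : Module.Basis ℕ k V) (t : TopologicalSpace (Tri k V))
    (ht : IsRingTopology t)
    (hB : Set.range (inc : V → Tri k V) ∈ @nhds (Tri k V) t 0) :
    t = ⊥ ∨ t = finiteIndexTopology k V ∨
      ∀ U ∈ @nhds (Tri k V) t 0, Set.range (inc : V → Tri k V) ⊆ U := by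
  by_cases hd : t = ⊥
  · exact Or.inl hd
  right
  by_cases hall : ∀ U ∈ @nhds (Tri k V) t 0, Set.range (inc : V → Tri k V) ⊆ U
  · exact Or.inr hall
  left
  push Not at hall
  obtain ⟨U0, hU0, hn⟩ := hall
  obtain ⟨_, ⟨v0, rfl⟩, hv0⟩ := Set.not_subset.1 hn
  have htr := isTopologicalRing t ht
  have h0 : @IsTopologicalRing (Tri k V) (finiteIndexTopology k V) _ :=
    (isFamily_finite (k := k) (V := V)).isTopologicalRing
  apply le_antisymm
  · apply le_of_nhds _ _ htr h0
    intro U hU
    obtain ⟨M, hM, hMU⟩ := (isFamily_finite (k := k) (V := V)).mem_nhds.1 hU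
    exact Filter.mem_of_superset (fine b t htr hB hd v0 U0 hU0 hv0 M hM) hMU
  · apply le_of_nhds _ _ h0 htr
    intro U hU
    obtain ⟨M, hM, hMU⟩ := coarse b t htr hB hd U hU
    exact (isFamily_finite (k := k) (V := V)).mem_nhds.2 ⟨M, hM, hMU⟩

theorem exists_basis [Finite k] [Infinite V] [Countable V] : Nonempty (Module.Basis ℕ k V) := by
  let b := Module.Basis.ofVectorSpace k V
  set ι := Module.Basis.ofVectorSpaceIndex k V
  have hι : Infinite ι := by
    by_contra hfin
    rw [not_infinite_iff_finite] at hfin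
    have : Module.Finite k V := Module.Finite.of_basis b
    have : Finite V := Module.finite_of_finite k
    exact not_finite V
  have hc : Countable ι := b.injective.countable
  obtain ⟨e⟩ : Nonempty (ι ≃ ℕ) := nonempty_equiv_of_countable
  exact ⟨b.reindex e⟩

theorem finite_ring [Finite k] : IsRingTopology (finiteIndexTopology k V) :=
  isRingTopology _ (isFamily_finite (k := k) (V := V)).isTopologicalRing

theorem finite_t2 [Finite k] : @T2Space (Tri k V) (finiteIndexTopology k V) :=
  t2_of_le (isFamily_finite (k := k) (V := V)) (fun _ h => h)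

theorem finite_ne_bot [Finite k] [Infinite V] : finiteIndexTopology k V ≠ ⊥ :=
  ne_bot_of (isFamily_finite (k := k) (V := V)) (fun h => by
    have := finite_of_quot_bot h
    exact not_finite V)

theorem range_mem_nhds : Set.range (inc : V → Tri k V) ∈
    @nhds (Tri k V) (finiteIndexTopology k V) 0 := by
  rw [range_inc_eq]
  exact (isFamily_finite (k := k) (V := V)).mem_nhds.2
    ⟨⊤, (isFamily_finite (k := k) (V := V)).top, subset_rfl⟩

theorem maximal_of_countable [Finite k] [Infinite V] [Countable V] :
    IsMaximalRingTopology (finiteIndexTopology k V) := by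
  refine ⟨finite_ring, finite_t2, finite_ne_bot, ?_⟩
  intro s hs hsT hsd hle
  obtain ⟨b⟩ := exists_basis (k := k) (V := V)
  have hB : Set.range (inc : V → Tri k V) ∈ @nhds (Tri k V) s 0 :=
    nhds_mono hle range_mem_nhds
  have h0 : @IsTopologicalRing (Tri k V) (finiteIndexTopology k V) _ :=
    (isFamily_finite (k := k) (V := V)).isTopologicalRing
  refine le_antisymm hle (le_of_nhds _ _ h0 (isTopologicalRing s hs) ?_)
  intro U hU
  obtain ⟨M, hM, hMU⟩ := coarse b s (isTopologicalRing s hs) hB hsd U hU
  exact (isFamily_finite (k := k) (V := V)).mem_nhds.2 ⟨M, hM, hMU⟩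

/-- for uncountable `V` there is a strictly finer non-discrete Hausdorff ring topology -/
theorem not_maximal_of_uncountable [Finite k] (hV : ¬ Countable V) :
    ¬ IsMaximalRingTopology (finiteIndexTopology k V) := by
  classical
  intro hmax
  have hVi : Infinite V := by
    by_contra h
    rw [not_infinite_iff_finite] at h
    exact hV inferInstance
  let P := isFamily_countable (k := k) (V := V)
  have hle : P.topology ≤ finiteIndexTopology k V := by
    apply le_of_nhds _ _ P.isTopologicalRing
      (isFamily_finite (k := k) (V := V)).isTopologicalRing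
    intro U hU
    obtain ⟨M, hM, hMU⟩ := (isFamily_finite (k := k) (V := V)).mem_nhds.1 hU
    have : Finite (V ⧸ M) := hM
    exact P.mem_nhds.2 ⟨M, (inferInstance : Countable (V ⧸ M)), hMU⟩
  have heq := hmax.2.2.2 P.topology (isRingTopology _ P.isTopologicalRing)
    (t2_of_le P (fun M hM => by
      have : Finite (V ⧸ M) := hM
      exact (inferInstance : Countable (V ⧸ M))))
    (ne_bot_of P (fun h => by
      apply hV
      have : Countable (V ⧸ (⊥ : Submodule k V)) := h
      exact ((Submodule.quotEquivOfEqBot (⊥ : Submodule k V) rfl).symm.injective).countable))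
    hle
  -- a subspace of countably infinite index
  let b := Module.Basis.ofVectorSpace k V
  set ι := Module.Basis.ofVectorSpaceIndex k V
  have hι : Infinite ι := by
    by_contra hfin
    rw [not_infinite_iff_finite] at hfin
    have : Module.Finite k V := Module.Finite.of_basis b
    have : Finite V := Module.finite_of_finite k
    exact not_finite V
  let e : ℕ ↪ ι := Infinite.natEmbedding ι
  let f : V →ₗ[k] (ℕ →₀ k) := b.constr k (fun i =>
    if h : ∃ n, e n = i then Finsupp.single h.choose 1 else 0)
  have hf : ∀ n, f (b (e n)) = Finsupp.single n 1 := by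
    intro n
    have h1 : f (b (e n)) = _ := b.constr_basis k _ (e n)
    rw [h1]
    have h2 : ∃ m, e m = e n := ⟨n, rfl⟩
    rw [dif_pos h2]
    rw [e.injective h2.choose_spec]
  have hsurj : Function.Surjective f := by
    intro y
    induction y using Finsupp.induction_linear with
    | zero => exact ⟨0, map_zero f⟩
    | add x y hx hy =>
      obtain ⟨x', rfl⟩ := hx
      obtain ⟨y', rfl⟩ := hy
      exact ⟨x' + y', map_add f _ _⟩
    | single n c =>
      refine ⟨c • b (e n), ?_⟩
      rw [map_smul, hf, Finsupp.smul_single, smul_eq_mul, mul_one]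
  let q : (V ⧸ LinearMap.ker f) ≃ₗ[k] (ℕ →₀ k) := f.quotKerEquivOfSurjective hsurj
  have hcount : Countable (V ⧸ LinearMap.ker f) := q.injective.countable
  have hinf : Infinite (V ⧸ LinearMap.ker f) := by
    have : Infinite (ℕ →₀ k) := by
      apply Infinite.of_injective (fun n : ℕ => (Finsupp.single n (1 : k)))
      intro m n h
      exact Finsupp.single_left_injective one_ne_zero h
    exact q.toEquiv.infinite_iff.2 this
  have h1 : (B (LinearMap.ker f) : Set (Tri k V)) ∈ @nhds (Tri k V) P.topology 0 :=
    P.mem_nhds.2 ⟨_, hcount, subset_rfl⟩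
  rw [heq] at h1
  obtain ⟨M, hM, hMU⟩ := (isFamily_finite (k := k) (V := V)).mem_nhds.1 h1
  have hle2 : M ≤ LinearMap.ker f := fun v hv => inc_mem_B.1 (hMU (inc_mem_B.2 hv))
  have : Finite (V ⧸ M) := hM
  have hfin : Finite (V ⧸ LinearMap.ker f) :=
    Finite.of_surjective (Submodule.factor hle2) (Submodule.factor_surjective hle2)
  exact not_finite (V ⧸ LinearMap.ker f)

end Pool.Agent.Y561.MT
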