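import Pool.Agent.Y561.MT.Final

/-!
Abstract version: an arbitrary ring `R` with a countable ideal `V`, a vector space over a finite
field, on which `R` acts as the full ring of linear operators.
-/

open Set Filter Topology

noncomputable section

namespace Pool.Agent.Y561.MT

/-- `j` embeds the vector space `V` over the field `k` as a two-sided ideal of the ring `R` in such
a way that every linear operator on `V` is the left multiplication by an element of `R`. -/
structure IsFullIdeal (k : Type) {V R : Type} [Field k] [AddCommGroup V] [Module k V] [Ring R]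
    (j : V →+ R) : Prop where
  inj : Function.Injective j
  left : ∀ (r : R) (v : V), ∃ w, r * j v = j w
  right : ∀ (r : R) (v : V), ∃ w, j v * r = j w
  full : ∀ g : Module.End k V, ∃ r : R, ∀ v, r * j v = j (g v)

/-- An additive group topology on a ring in which all left multiplications are continuous. -/
def IsLeftTopology {R : Type} [Ring R] (t : TopologicalSpace R) : Prop :=
  (@Continuous (R × R) R (@instTopologicalSpaceProd R R t t) t fun p => p.1 - p.2) ∧
  ∀ r : R, @Continuous R R t t fun x => r * x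

theorem IsRingTopology.isLeftTopology {R : Type} [Ring R] {t : TopologicalSpace R}
    (h : IsRingTopology t) : IsLeftTopology t := by
  have h1 := isTopologicalRing t h
  refine ⟨h.1, fun r => ?_⟩
  let _ := t
  exact continuous_const.mul continuous_id

theorem IsLeftTopology.group {R : Type} [Ring R] (t : TopologicalSpace R)
    (h : IsLeftTopology t) : @IsTopologicalAddGroup R t _ := by
  let _ := t
  have hsub : Continuous fun p : R × R => p.1 - p.2 := h.1
  have hneg : Continuous fun x : R => -x := by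
    have := hsub.comp (continuous_const.prodMk continuous_id : Continuous fun x : R => ((0 : R), x))
    simpa [Function.comp_def] using this
  exact
    { continuous_add := by
        have := hsub.comp (continuous_fst.prodMk (hneg.comp continuous_snd) :
          Continuous fun p : R × R => (p.1, - p.2))
        simpa [Function.comp_def] using this
      continuous_neg := hneg }

theorem le_of_nhds' {R : Type} [Ring R] (s t : TopologicalSpace R)
    (hs : @IsTopologicalAddGroup R s _) (ht : @IsTopologicalAddGroup R t _)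
    (h : ∀ U ∈ @nhds R t 0, U ∈ @nhds R s 0) : s ≤ t := by
  rw [le_iff_nhds]
  intro x U hU
  have h1 : @nhds R s x = Filter.map (fun y => x + y) (@nhds R s 0) :=
    (@map_add_left_nhds_zero R s _ hs x).symm
  have h2 : @nhds R t x = Filter.map (fun y => x + y) (@nhds R t 0) :=
    (@map_add_left_nhds_zero R t _ ht x).symm
  rw [h2, Filter.mem_map] at hU
  rw [h1, Filter.mem_map]
  exact h _ hU

theorem eq_bot_of_mem' {R : Type} [Ring R] (t : TopologicalSpace R)
    (ht : @IsTopologicalAddGroup R t _) (h : ({0} : Set R) ∈ @nhds R t 0) : t = ⊥ := by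
  let _ := t
  have : DiscreteTopology R := by
    apply discreteTopology_of_isOpen_singleton_zero
    rw [isOpen_iff_mem_nhds]
    intro x hx
    rw [Set.mem_singleton_iff] at hx
    subst hx
    exact h
  exact this.eq_bot

section Abstract

variable {k V R : Type} [Field k] [AddCommGroup V] [Module k V] [Ring R] {j : V →+ R}

/-- the ideal has square zero -/
theorem IsFullIdeal.sq_zero (h : IsFullIdeal k j) [Countable V] (b : Module.Basis ℕ k V)
    (v w : V) : j v * j w = 0 := by
  classical
  by_contra hne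
  choose r hr using h.full
  choose u hu using fun (x : R) => h.right x v
  let g : Set ℕ → Module.End k V := fun A => b.constr k (fun n => if n ∈ A then w else 0)
  have hinj : Function.Injective fun A : Set ℕ => u (r (g A)) := by
    intro A A' hAA
    have h1 : j v * r (g A) = j v * r (g A') := by
      rw [hu, hu]
      exact congrArg j hAA
    ext n
    have h2 : ∀ A : Set ℕ, j v * r (g A) * j (b n) = if n ∈ A then j v * j w else 0 := by
      intro A
      rw [mul_assoc, hr]
      have h3 : g A (b n) = if n ∈ A then w else 0 := b.constr_basis k _ n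
      rw [h3]
      split_ifs <;> simp
    have h4 := h2 A
    rw [h1, h2 A'] at h4
    by_cases hA : n ∈ A <;> by_cases hA' : n ∈ A'
    · simp [hA, hA']
    · rw [if_neg hA', if_pos hA] at h4
      exact absurd h4.symm hne
    · rw [if_pos hA', if_neg hA] at h4
      exact absurd h4 hne
    · simp [hA, hA']
  obtain ⟨f, hf⟩ := exists_injective_nat V
  exact Function.cantor_injective (fun A : Set ℕ => f (u (r (g A)))) (hf.comp hinj)

/-- the invariant core of a subgroup of finite index -/
theorem exists_core [Finite k] (L : AddSubgroup V) (hL : Finite (V ⧸ L)) :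
    ∃ M : Submodule k V, Finite (V ⧸ M) ∧ ∀ x ∈ M, x ∈ L := by
  let M : Submodule k V :=
    { carrier := {v | ∀ c : k, c • v ∈ L}
      zero_mem' := fun c => by rw [smul_zero]; exact L.zero_mem
      add_mem' := fun {x y} hx hy c => by rw [smul_add]; exact L.add_mem (hx c) (hy c)
      smul_mem' := fun a x hx c => by rw [smul_smul]; exact hx _ }
  refine ⟨M, ?_, ?_⟩
  · let φ : V ⧸ M → (k → V ⧸ L) := Quotient.lift (fun v c => (QuotientAddGroup.mk (c • v) : V ⧸ L))
      (by
        intro a b hab
        funext c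
        have h1 : a - b ∈ M := by
          have := QuotientAddGroup.leftRel_apply.1 hab
          have h2 := M.neg_mem this
          rwa [neg_add, neg_neg, ← sub_eq_add_neg] at h2
        rw [eq_comm, QuotientAddGroup.eq, ← sub_eq_neg_add, ← smul_sub]
        exact h1 c)
    apply Finite.of_injective φ
    intro a b
    refine Quotient.inductionOn₂ a b ?_
    intro x y h
    apply Quotient.sound
    apply QuotientAddGroup.leftRel_apply.2
    show -x + y ∈ M
    intro c
    have h1 := congrFun h c
    have h2 : (QuotientAddGroup.mk (c • x) : V ⧸ L) = QuotientAddGroup.mk (c • y) := h1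
    rw [QuotientAddGroup.eq] at h2
    rwa [smul_add, smul_neg]
  · intro x hx
    simpa using hx 1

/-- inverse images of subspaces of finite index under additive maps -/
theorem exists_core_map [Finite k] (M : Submodule k V) (hM : Finite (V ⧸ M)) (l : V →+ V) :
    ∃ M' : Submodule k V, Finite (V ⧸ M') ∧ ∀ x ∈ M', l x ∈ M := by
  have hfin : Finite (V ⧸ (M.toAddSubgroup.comap l)) := by
    let f : V →+ V ⧸ M := (M.mkQ : V →+ V ⧸ M).comp l
    have hk : f.ker = M.toAddSubgroup.comap l := by
      ext x
      rw [AddMonoidHom.mem_ker]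
      show M.mkQ (l x) = 0 ↔ l x ∈ M
      rw [Submodule.mkQ_apply, Submodule.Quotient.mk_eq_zero]
    rw [← hk]
    exact Finite.of_injective _ (QuotientAddGroup.kerLift_injective f)
  obtain ⟨M', h1, h2⟩ := exists_core (k := k) _ hfin
  exact ⟨M', h1, fun x hx => h2 x hx⟩

/-- a subspace of the ideal as a subgroup of the ring -/
def Bj (j : V →+ R) (M : Submodule k V) : AddSubgroup R := M.toAddSubgroup.map j

theorem mem_Bj {M : Submodule k V} {x : R} : x ∈ Bj j M ↔ ∃ v ∈ M, j v = x := Iff.rfl

theorem IsFullIdeal.basis (h : IsFullIdeal k j) [Finite k] [Countable V]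
    (b : Module.Basis ℕ k V) :
    RingSubgroupsBasis (fun M : {M : Submodule k V // Finite (V ⧸ M)} => Bj j M.1) where
  inter s t := by
    refine ⟨⟨s.1 ⊓ t.1, (Tri.isFamily_finite (k := k) (V := V)).inf _ _ s.2 t.2⟩, ?_⟩
    rintro _ ⟨v, hv, rfl⟩
    exact ⟨⟨v, hv.1, rfl⟩, ⟨v, hv.2, rfl⟩⟩
  mul s := by
    refine ⟨s, ?_⟩
    rintro _ ⟨_, ⟨v, hv, rfl⟩, _, ⟨w, hw, rfl⟩, rfl⟩
    show j v * j w ∈ Bj j s.1
    rw [h.sq_zero b]
    exact (Bj j s.1).zero_mem
  leftMul r s := by
    choose u hu using h.left r
    let l : V →+ V :=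
      { toFun := u
        map_zero' := h.inj (by rw [← hu, map_zero, mul_zero])
        map_add' := fun x y => h.inj (by rw [← hu, map_add, mul_add, map_add, hu, hu]) }
    obtain ⟨M', h1, h2⟩ := exists_core_map s.1 s.2 l
    refine ⟨⟨M', h1⟩, ?_⟩
    rintro _ ⟨v, hv, rfl⟩
    exact ⟨u v, h2 v hv, (hu v).symm⟩
  rightMul r s := by
    choose u hu using h.right r
    let l : V →+ V :=
      { toFun := u
        map_zero' := h.inj (by rw [← hu, map_zero, zero_mul])
        map_add' := fun x y => h.inj (by rw [← hu, map_add, add_mul, map_add, hu, hu]) }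
    obtain ⟨M', h1, h2⟩ := exists_core_map s.1 s.2 l
    refine ⟨⟨M', h1⟩, ?_⟩
    rintro _ ⟨v, hv, rfl⟩
    exact ⟨u v, h2 v hv, (hu v).symm⟩

/-- the ring topology of the subspaces of finite index -/
theorem IsFullIdeal.exists_topology (h : IsFullIdeal k j) [Finite k] [Countable V]
    (b : Module.Basis ℕ k V) :
    ∃ τ : TopologicalSpace R, IsRingTopology τ ∧
      ∀ U : Set R, U ∈ @nhds R τ 0 ↔
        ∃ M : Submodule k V, Finite (V ⧸ M) ∧ ∀ v ∈ M, j v ∈ U := by
  have : Nonempty {M : Submodule k V // Finite (V ⧸ M)} :=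
    ⟨⟨⊤, (Tri.isFamily_finite (k := k) (V := V)).top⟩⟩
  refine ⟨(h.basis b).topology, isRingTopology _ (h.basis b).toRingFilterBasis.isTopologicalRing,
    ?_⟩
  intro U
  constructor
  · intro hU
    obtain ⟨⟨M, hM⟩, -, hs⟩ := (h.basis b).hasBasis_nhds_zero.mem_iff.1 hU
    exact ⟨M, hM, fun v hv => hs ⟨v, hv, rfl⟩⟩
  · rintro ⟨M, hM, hs⟩
    refine (h.basis b).hasBasis_nhds_zero.mem_iff.2 ⟨⟨M, hM⟩, trivial, ?_⟩
    rintro _ ⟨v, hv, rfl⟩
    exact hs v hv

variable (τ : TopologicalSpace R)

theorem t2_gen (h : IsFullIdeal k j) [Finite k] (hτ : IsRingTopology τ)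
    (hn : ∀ U : Set R, U ∈ @nhds R τ 0 ↔
        ∃ M : Submodule k V, Finite (V ⧸ M) ∧ ∀ v ∈ M, j v ∈ U) : @T2Space R τ := by
  have := isTopologicalRing τ hτ
  let _ := τ
  apply IsTopologicalAddGroup.t2Space_of_zero_sep
  intro x hx
  by_cases h0 : ∃ v, j v = x
  · obtain ⟨v, rfl⟩ := h0
    have hv : v ≠ 0 := fun hv => hx (by rw [hv, map_zero])
    obtain ⟨M, hM, hvM⟩ := exists_avoid (k := k) v hv
    refine ⟨j '' (M : Set V), (hn _).2 ⟨M, hM, fun v hv => ⟨v, hv, rfl⟩⟩, ?_⟩
    rintro ⟨w, hw, hwe⟩
    rw [h.inj hwe] at hw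
    exact hvM hw
  · refine ⟨Set.range j, (hn _).2 ⟨⊤, (Tri.isFamily_finite (k := k) (V := V)).top,
      fun v _ => ⟨v, rfl⟩⟩, ?_⟩
    rintro ⟨v, hv⟩
    exact h0 ⟨v, hv⟩

theorem ne_bot_gen (h : IsFullIdeal k j) [Infinite V]
    (hn : ∀ U : Set R, U ∈ @nhds R τ 0 ↔
        ∃ M : Submodule k V, Finite (V ⧸ M) ∧ ∀ v ∈ M, j v ∈ U) : τ ≠ ⊥ := by
  intro h1
  have h0 : ({0} : Set R) ∈ @nhds R τ 0 := by
    rw [h1]
    let _ : TopologicalSpace R := ⊥
    have : DiscreteTopology R := ⟨rfl⟩
    exact mem_nhds_discrete.2 rfl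
  obtain ⟨M, hM, hs⟩ := (hn _).1 h0
  have : M = ⊥ := by
    rw [Submodule.eq_bot_iff]
    intro v hv
    exact h.inj (by rw [hs v hv, map_zero])
  rw [this] at hM
  have := finite_of_quot_bot hM
  exact not_finite V

/-- the finite index topology is not complete -/
theorem not_complete_gen (h : IsFullIdeal k j) [Finite k] [Infinite V] (hτ : IsRingTopology τ)
    (hn : ∀ U : Set R, U ∈ @nhds R τ 0 ↔
        ∃ M : Submodule k V, Finite (V ⧸ M) ∧ ∀ v ∈ M, j v ∈ U) :
    ¬ IsCompleteRingTopology τ := by
  intro hc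
  let b := Module.Basis.ofVectorSpace k V
  set ι := Module.Basis.ofVectorSpaceIndex k V
  have hι : Infinite ι := by
    by_contra hfin
    rw [not_infinite_iff_finite] at hfin
    have : Module.Finite k V := Module.Finite.of_basis b
    have : Finite V := Module.finite_of_finite k
    exact not_finite V
  let U : Ultrafilter ι := Filter.hyperfilter ι
  let F : Filter R := Filter.map (fun i => j (b i)) (U : Filter ι)
  have hFne : F.NeBot := Filter.map_neBot
  obtain ⟨x, hx⟩ := hc F hFne (by
    intro W hW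
    obtain ⟨M, hM, hMW⟩ := (hn W).1 hW
    have : Finite (V ⧸ M) := hM
    have hcov : (⋃ q ∈ (Set.univ : Set (V ⧸ M)), {i : ι | M.mkQ (b i) = q}) ∈ U := by
      have : (⋃ q ∈ (Set.univ : Set (V ⧸ M)), {i : ι | M.mkQ (b i) = q}) = Set.univ := by
        ext i
        simp
      rw [this]
      exact Filter.univ_mem
    rw [Ultrafilter.finite_biUnion_mem_iff Set.finite_univ] at hcov
    obtain ⟨q, -, hq⟩ := hcov
    refine ⟨(fun i => j (b i)) '' {i : ι | M.mkQ (b i) = q}, Filter.image_mem_map hq, ?_⟩
    rintro _ ⟨i, hi, rfl⟩ _ ⟨i', hi', rfl⟩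
    rw [← map_sub]
    apply hMW
    rw [← Submodule.Quotient.mk_eq_zero M, ← Submodule.mkQ_apply, map_sub, hi, hi', sub_self])
  have htr := isTopologicalRing τ hτ
  let _ := τ
  have key : ∀ M : Submodule k V, Finite (V ⧸ M) →
      ∀ᶠ i in (U : Filter ι), ∃ w ∈ M, j w = j (b i) - x := by
    intro M hM
    have h1 : (j '' (M : Set V)) ∈ 𝓝 (0 : R) :=
      (hn _).2 ⟨M, hM, fun v hv => ⟨v, hv, rfl⟩⟩
    have h2 : (fun y => y - x) ⁻¹' (j '' (M : Set V)) ∈ 𝓝 x := by
      have hcont : Continuous fun y : R => y - x := continuous_id.sub continuous_const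
      apply hcont.continuousAt.preimage_mem_nhds
      rw [sub_self]
      exact h1
    exact hx h2
  obtain ⟨y, hy⟩ : ∃ y, j y = x := by
    obtain ⟨i, w, -, hw⟩ := (key ⊤ (Tri.isFamily_finite (k := k) (V := V)).top).exists
    exact ⟨b i - w, by rw [map_sub, hw, sub_sub_cancel]⟩
  have hcoord : ∀ φ : Module.Dual k V, ∀ᶠ i in (U : Filter ι), φ (b i) = φ y := by
    intro φ
    filter_upwards [key (LinearMap.ker φ) (finite_quot_ker φ)] with i hi
    obtain ⟨w, hw, hwe⟩ := hi
    rw [← hy, ← map_sub] at hwe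
    have h3 : w = b i - y := h.inj hwe
    rw [h3, LinearMap.mem_ker, map_sub] at hw
    exact sub_eq_zero.1 hw
  have hx0 : y = 0 := by
    apply b.repr.injective
    rw [map_zero]
    ext i0
    have h4 := hcoord (b.coord i0)
    have h5 : ∀ᶠ i in (U : Filter ι), i ≠ i0 := by
      have : ({i0} : Set ι)ᶜ ∈ (Filter.cofinite : Filter ι) :=
        (Set.finite_singleton i0).compl_mem_cofinite
      exact Filter.hyperfilter_le_cofinite this
    obtain ⟨i, hi1, hi2⟩ := (h4.and h5).exists
    rw [Module.Basis.coord_apply, Module.Basis.repr_self, Finsupp.single_eq_of_ne (Ne.symm hi2)] at hi1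
    rw [Module.Basis.coord_apply] at hi1
    rw [← hi1]; rfl
  have h6 := hcoord (b.constr k (fun _ => (1 : k)))
  obtain ⟨i, hi⟩ := h6.exists
  rw [Module.Basis.constr_basis, hx0, map_zero] at hi
  exact one_ne_zero hi

end Abstract

end Pool.Agent.Y561.MT
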