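import Mathlib

/-!
The ring of triangular matrices `(a v; 0 c)` with `a` a linear operator on a vector space `V`,
`v` a vector and `c` a scalar, and the ring topologies on it given by families of subspaces of
the ideal `V`.
-/

open Set Filter Topology

noncomputable section

namespace Pool.Agent.Y561.MT

/-- A ring topology on a ring: subtraction and multiplication are continuous. -/
def IsRingTopology {R : Type} [Ring R] (t : TopologicalSpace R) : Prop :=
  (@Continuous (R × R) R (@instTopologicalSpaceProd R R t t) t fun p => p.1 - p.2) ∧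
  (@Continuous (R × R) R (@instTopologicalSpaceProd R R t t) t fun p => p.1 * p.2)

/-- A maximal ring topology: a non-discrete Hausdorff ring topology such that no non-discrete
Hausdorff ring topology is strictly finer.  (In Mathlib `s ≤ t` means that `s` is finer than `t`
and `⊥` is the discrete topology.) -/
def IsMaximalRingTopology {R : Type} [Ring R] (t : TopologicalSpace R) : Prop :=
  IsRingTopology t ∧ @T2Space R t ∧ t ≠ ⊥ ∧
    ∀ s : TopologicalSpace R, IsRingTopology s → @T2Space R s → s ≠ ⊥ → s ≤ t → s = t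

/-- Completeness for the additive uniformity: every Cauchy filter converges. -/
def IsCompleteRingTopology {R : Type} [Ring R] (t : TopologicalSpace R) : Prop :=
  ∀ F : Filter R, F.NeBot →
    (∀ U ∈ @nhds R t 0, ∃ A ∈ F, ∀ x ∈ A, ∀ y ∈ A, x - y ∈ U) → ∃ x, F ≤ @nhds R t x

theorem isTopologicalRing {R : Type} [Ring R] (t : TopologicalSpace R)
    (h : IsRingTopology t) : @IsTopologicalRing R t _ := by
  letI := t
  have hsub : Continuous fun p : R × R => p.1 - p.2 := h.1
  have hneg : Continuous fun x : R => -x := by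
    have := hsub.comp (continuous_const.prodMk continuous_id : Continuous fun x : R => ((0 : R), x))
    simpa [Function.comp_def] using this
  exact
    { continuous_add := by
        have := hsub.comp (continuous_fst.prodMk (hneg.comp continuous_snd) :
          Continuous fun p : R × R => (p.1, - p.2))
        simpa [Function.comp_def] using this
      continuous_neg := hneg
      continuous_mul := h.2 }

theorem isRingTopology {R : Type} [Ring R] (t : TopologicalSpace R)
    (h : @IsTopologicalRing R t _) : IsRingTopology t := by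
  letI := t
  exact ⟨continuous_fst.sub continuous_snd, continuous_fst.mul continuous_snd⟩

/-! ### The ring -/

/-- The ring of triangular matrices `(a v; 0 c)` with `a` a linear operator on `V`, `v` a vector
and `c` a scalar. -/
@[ext] structure Tri (k V : Type) [Field k] [AddCommGroup V] [Module k V] : Type where
  a : Module.End k V
  v : V
  c : k

namespace Tri

variable {k V : Type} [Field k] [AddCommGroup V] [Module k V]

instance : Zero (Tri k V) := ⟨⟨0, 0, 0⟩⟩
instance : One (Tri k V) := ⟨⟨1, 0, 1⟩⟩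
instance : Add (Tri k V) := ⟨fun x y => ⟨x.a + y.a, x.v + y.v, x.c + y.c⟩⟩
instance : Neg (Tri k V) := ⟨fun x => ⟨-x.a, -x.v, -x.c⟩⟩
instance : Mul (Tri k V) := ⟨fun x y => ⟨x.a * y.a, x.a y.v + y.c • x.v, x.c * y.c⟩⟩

@[simp] theorem zero_a : (0 : Tri k V).a = 0 := rfl
@[simp] theorem zero_v : (0 : Tri k V).v = 0 := rfl
@[simp] theorem zero_c : (0 : Tri k V).c = 0 := rfl
@[simp] theorem one_a : (1 : Tri k V).a = 1 := rfl
@[simp] theorem one_v : (1 : Tri k V).v = 0 := rfl
@[simp] theorem one_c : (1 : Tri k V).c = 1 := rfl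
@[simp] theorem add_a (x y : Tri k V) : (x + y).a = x.a + y.a := rfl
@[simp] theorem add_v (x y : Tri k V) : (x + y).v = x.v + y.v := rfl
@[simp] theorem add_c (x y : Tri k V) : (x + y).c = x.c + y.c := rfl
@[simp] theorem neg_a (x : Tri k V) : (-x).a = -x.a := rfl
@[simp] theorem neg_v (x : Tri k V) : (-x).v = -x.v := rfl
@[simp] theorem neg_c (x : Tri k V) : (-x).c = -x.c := rfl
@[simp] theorem mul_a (x y : Tri k V) : (x * y).a = x.a * y.a := rfl
@[simp] theorem mul_v (x y : Tri k V) : (x * y).v = x.a y.v + y.c • x.v := rfl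
@[simp] theorem mul_c (x y : Tri k V) : (x * y).c = x.c * y.c := rfl

instance : Ring (Tri k V) where
  add_assoc x y z := by ext1 <;> simp [add_assoc]
  zero_add x := by ext1 <;> simp
  add_zero x := by ext1 <;> simp
  add_comm x y := by ext1 <;> simp [add_comm]
  neg_add_cancel x := Tri.ext (neg_add_cancel x.a) (neg_add_cancel x.v) (neg_add_cancel x.c)
  nsmul := nsmulRec
  zsmul := zsmulRec
  mul_assoc x y z := by
    ext1
    · simp [mul_assoc]
    · simp only [mul_v, mul_a, mul_c, map_add, map_smul, smul_add, smul_smul, Module.End.mul_apply]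
      rw [mul_comm z.c y.c, add_assoc]
    · simp [mul_assoc]
  one_mul x := by ext1 <;> simp
  mul_one x := by ext1 <;> simp
  left_distrib x y z := by
    ext1
    · simp [mul_add]
    · simp only [mul_v, add_v, add_c, map_add, add_smul]; abel
    · simp [mul_add]
  right_distrib x y z := by
    ext1
    · simp [add_mul]
    · simp only [mul_v, add_v, add_a, smul_add, LinearMap.add_apply]; abel
    · simp [add_mul]
  zero_mul x := by ext1 <;> simp
  mul_zero x := by ext1 <;> simp

theorem sub_a (x y : Tri k V) : (x - y).a = x.a - y.a := (sub_eq_add_neg x.a y.a).symm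
theorem sub_v (x y : Tri k V) : (x - y).v = x.v - y.v := (sub_eq_add_neg x.v y.v).symm
theorem sub_c (x y : Tri k V) : (x - y).c = x.c - y.c := (sub_eq_add_neg x.c y.c).symm

/-- the embedding of `V` as an ideal -/
def inc (v : V) : Tri k V := ⟨0, v, 0⟩

@[simp] theorem inc_a (v : V) : (inc v : Tri k V).a = 0 := rfl
@[simp] theorem inc_v (v : V) : (inc v : Tri k V).v = v := rfl
@[simp] theorem inc_c (v : V) : (inc v : Tri k V).c = 0 := rfl

theorem inc_add (v w : V) : (inc (v + w) : Tri k V) = inc v + inc w := by ext1 <;> simp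
theorem inc_neg (v : V) : (inc (-v) : Tri k V) = -inc v :=
  Tri.ext (neg_zero (G := Module.End k V)).symm rfl (neg_zero (G := k)).symm
theorem inc_sub (v w : V) : (inc (v - w) : Tri k V) = inc v - inc w := by
  rw [sub_eq_add_neg v w, sub_eq_add_neg (inc v), inc_add, inc_neg]
theorem inc_zero : (inc 0 : Tri k V) = 0 := rfl
theorem inc_injective : Function.Injective (inc : V → Tri k V) := fun _ _ h => congrArg Tri.v h

/-- the embedding of `V` as an additive homomorphism -/
def incHom : V →+ Tri k V where
  toFun := inc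
  map_zero' := rfl
  map_add' := inc_add

/-- the operator `g` as an element of the ring -/
def op (g : Module.End k V) : Tri k V := ⟨g, 0, 0⟩

theorem op_mul_inc (g : Module.End k V) (v : V) : op g * inc v = inc (g v) := by
  ext1 <;> simp [op]

/-- a subspace of the ideal `V` as a subgroup of the ring -/
def B (M : Submodule k V) : AddSubgroup (Tri k V) where
  carrier := {x | x.a = 0 ∧ x.c = 0 ∧ x.v ∈ M}
  zero_mem' := ⟨rfl, rfl, M.zero_mem⟩
  add_mem' := by
    rintro x y ⟨h1, h2, h3⟩ ⟨k1, k2, k3⟩
    exact ⟨by simp [h1, k1], by simp [h2, k2], M.add_mem h3 k3⟩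
  neg_mem' := by
    rintro x ⟨h1, h2, h3⟩
    exact ⟨by rw [neg_a, h1]; exact neg_zero (G := Module.End k V),
      by rw [neg_c, h2]; exact neg_zero (G := k), M.neg_mem h3⟩

theorem mem_B {M : Submodule k V} {x : Tri k V} :
    x ∈ B M ↔ x.a = 0 ∧ x.c = 0 ∧ x.v ∈ M := Iff.rfl

theorem eq_inc_of_mem {x : Tri k V} {M : Submodule k V} (hx : x ∈ B M) : x = inc x.v :=
  Tri.ext hx.1 rfl hx.2.1

theorem inc_mem_B {M : Submodule k V} {v : V} : (inc v : Tri k V) ∈ B M ↔ v ∈ M :=
  ⟨fun h => h.2.2, fun h => ⟨rfl, rfl, h⟩⟩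

theorem B_mono {M N : Submodule k V} (h : M ≤ N) : (B M : Set (Tri k V)) ⊆ B N :=
  fun _ hx => ⟨hx.1, hx.2.1, h hx.2.2⟩

/-- A family of subspaces which contains `V`, is closed under intersections and under inverse
images by operators. -/
structure IsFamily (P : Submodule k V → Prop) : Prop where
  top : P ⊤
  inf : ∀ M N, P M → P N → P (M ⊓ N)
  comap : ∀ M (g : Module.End k V), P M → P (M.comap g)

theorem IsFamily.basis {P : Submodule k V → Prop} (hP : IsFamily P) :
    RingSubgroupsBasis (fun M : {M : Submodule k V // P M} => B M.1) where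
  inter s t := ⟨⟨s.1 ⊓ t.1, hP.inf _ _ s.2 t.2⟩, fun _ hx =>
    ⟨⟨hx.1, hx.2.1, hx.2.2.1⟩, ⟨hx.1, hx.2.1, hx.2.2.2⟩⟩⟩
  mul s := by
    refine ⟨s, ?_⟩
    rintro _ ⟨x, hx, y, hy, rfl⟩
    obtain ⟨h1, h2, h3⟩ := hx
    obtain ⟨k1, k2, k3⟩ := hy
    exact ⟨by simp [h1], by simp [h2], by simp [h1, k2]⟩
  leftMul x s := by
    refine ⟨⟨s.1.comap x.a, hP.comap _ _ s.2⟩, ?_⟩
    rintro y ⟨k1, k2, k3⟩
    refine ⟨by simp [k1], by simp [k2], ?_⟩
    have h : x.a y.v ∈ s.1 := k3
    simpa [k2] using h
  rightMul x s := by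
    refine ⟨s, ?_⟩
    rintro y ⟨k1, k2, k3⟩
    refine ⟨by simp [k1], by simp [k2], ?_⟩
    have h : x.c • y.v ∈ s.1 := s.1.smul_mem _ k3
    simpa [k1] using h

/-- the ring topology given by a family of subspaces of the ideal `V` -/
def IsFamily.topology {P : Submodule k V → Prop} (hP : IsFamily P) :
    TopologicalSpace (Tri k V) :=
  haveI : Nonempty {M : Submodule k V // P M} := ⟨⟨⊤, hP.top⟩⟩
  hP.basis.topology

theorem IsFamily.isTopologicalRing {P : Submodule k V → Prop} (hP : IsFamily P) :
    @IsTopologicalRing (Tri k V) hP.topology _ :=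
  haveI : Nonempty {M : Submodule k V // P M} := ⟨⟨⊤, hP.top⟩⟩
  hP.basis.toRingFilterBasis.isTopologicalRing

theorem IsFamily.mem_nhds {P : Submodule k V → Prop} (hP : IsFamily P) {U : Set (Tri k V)} :
    U ∈ @nhds (Tri k V) hP.topology 0 ↔ ∃ M, P M ∧ (B M : Set (Tri k V)) ⊆ U := by
  haveI : Nonempty {M : Submodule k V // P M} := ⟨⟨⊤, hP.top⟩⟩
  constructor
  · intro h
    obtain ⟨⟨M, hM⟩, -, hs⟩ := hP.basis.hasBasis_nhds_zero.mem_iff.1 h
    exact ⟨M, hM, hs⟩
  · rintro ⟨M, hM, hs⟩
    exact hP.basis.hasBasis_nhds_zero.mem_iff.2 ⟨⟨M, hM⟩, trivial, hs⟩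

theorem isFamily_finite : IsFamily (fun M : Submodule k V => Finite (V ⧸ M)) where
  top := by infer_instance
  inf M N hM hN := by
    have : Finite (V ⧸ M) := hM
    have : Finite (V ⧸ N) := hN
    let f : V →ₗ[k] (V ⧸ M) × (V ⧸ N) := M.mkQ.prod N.mkQ
    have hf : LinearMap.ker f = M ⊓ N := by
      rw [LinearMap.ker_prod, Submodule.ker_mkQ, Submodule.ker_mkQ]
    rw [← hf]
    exact Finite.of_injective _ (f.quotKerEquivRange.injective)
  comap M g hM := by
    have : Finite (V ⧸ M) := hM
    let f : V →ₗ[k] (V ⧸ M) := M.mkQ ∘ₗ g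
    have hf : LinearMap.ker f = M.comap g := by
      rw [LinearMap.ker_comp, Submodule.ker_mkQ]
    rw [← hf]
    exact Finite.of_injective _ (f.quotKerEquivRange.injective)

theorem isFamily_countable : IsFamily (fun M : Submodule k V => Countable (V ⧸ M)) where
  top := by infer_instance
  inf M N hM hN := by
    have : Countable (V ⧸ M) := hM
    have : Countable (V ⧸ N) := hN
    let f : V →ₗ[k] (V ⧸ M) × (V ⧸ N) := M.mkQ.prod N.mkQ
    have hf : LinearMap.ker f = M ⊓ N := by
      rw [LinearMap.ker_prod, Submodule.ker_mkQ, Submodule.ker_mkQ]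
    rw [← hf]
    exact (f.quotKerEquivRange.injective).countable
  comap M g hM := by
    have : Countable (V ⧸ M) := hM
    let f : V →ₗ[k] (V ⧸ M) := M.mkQ ∘ₗ g
    have hf : LinearMap.ker f = M.comap g := by
      rw [LinearMap.ker_comp, Submodule.ker_mkQ]
    rw [← hf]
    exact (f.quotKerEquivRange.injective).countable

end Tri

open Tri

/-- The *finite index topology* on the ring of triangular matrices: the neighbourhoods of zero are
the sets which contain a subspace of finite index of the ideal `V`. -/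
def finiteIndexTopology (k V : Type) [Field k] [AddCommGroup V] [Module k V] :
    TopologicalSpace (Tri k V) :=
  (isFamily_finite (k := k) (V := V)).topology

end Pool.Agent.Y561.MT
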