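import Pool.Agent.Y561.MT.Bogo
import Pool.Agent.Y561.MT.Tri

/-!
The finite index topology: Hausdorff, non-discrete, incomplete; the classification of the ring
topologies in which the ideal `V` is open.
-/

open Set Filter Topology

noncomputable section

namespace Pool.Agent.Y561.MT

open Tri

variable {k V : Type} [Field k] [AddCommGroup V] [Module k V]

theorem IsTopologicalRing.eq_bot_of_mem {R : Type} [Ring R] (t : TopologicalSpace R)
    (ht : @IsTopologicalRing R t _) (h : ({0} : Set R) ∈ @nhds R t 0) : t = ⊥ := by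
  let _ := t
  have : DiscreteTopology R := by
    apply discreteTopology_of_isOpen_singleton_zero
    rw [isOpen_iff_mem_nhds]
    intro x hx
    rw [Set.mem_singleton_iff] at hx
    subst hx
    exact h
  exact this.eq_bot

theorem finite_quot_ker [Finite k] (φ : Module.Dual k V) :
    Finite (V ⧸ LinearMap.ker φ) :=
  Finite.of_injective _ (φ.quotKerEquivRange.injective)

/-- a finite index subspace avoiding a nonzero vector -/
theorem exists_avoid [Finite k] (v : V) (hv : v ≠ 0) :
    ∃ M : Submodule k V, Finite (V ⧸ M) ∧ v ∉ M := by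
  obtain ⟨φ, hφ⟩ : ∃ φ : Module.Dual k V, φ v ≠ 0 := by
    by_contra hcon
    push Not at hcon
    exact hv ((Module.forall_dual_apply_eq_zero_iff k v).1 hcon)
  exact ⟨LinearMap.ker φ, finite_quot_ker φ, hφ⟩

theorem t2_of_le [Finite k] {P : Submodule k V → Prop} (hP : IsFamily P)
    (h : ∀ M : Submodule k V, Finite (V ⧸ M) → P M) : @T2Space (Tri k V) hP.topology := by
  let _ := hP.topology
  have : IsTopologicalRing (Tri k V) := hP.isTopologicalRing
  apply IsTopologicalAddGroup.t2Space_of_zero_sep
  intro x hx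
  by_cases h0 : x.a = 0 ∧ x.c = 0
  · have hv : x.v ≠ 0 := fun hv => hx (Tri.ext h0.1 hv h0.2)
    obtain ⟨M, hM, hvM⟩ := exists_avoid (k := k) x.v hv
    exact ⟨B M, hP.mem_nhds.2 ⟨M, h M hM, subset_rfl⟩, fun hmem => hvM hmem.2.2⟩
  · refine ⟨(B (⊤ : Submodule k V) : Set (Tri k V)), hP.mem_nhds.2 ⟨⊤, hP.top, subset_rfl⟩, ?_⟩
    intro hmem
    exact h0 ⟨hmem.1, hmem.2.1⟩

theorem ne_bot_of {P : Submodule k V → Prop} (hP : IsFamily P) (h : ¬ P ⊥) :
    hP.topology ≠ ⊥ := by
  intro h1
  have h0 : ({0} : Set (Tri k V)) ∈ @nhds (Tri k V) hP.topology 0 := by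
    rw [h1]
    letI : TopologicalSpace (Tri k V) := ⊥
    have : DiscreteTopology (Tri k V) := ⟨rfl⟩
    exact mem_nhds_discrete.2 rfl
  obtain ⟨M, hM, hs⟩ := hP.mem_nhds.1 h0
  have : M = ⊥ := by
    rw [Submodule.eq_bot_iff]
    intro v hv
    have h2 : (inc v : Tri k V) ∈ ({0} : Set (Tri k V)) := hs (inc_mem_B.2 hv)
    exact congrArg Tri.v h2
  rw [this] at hM
  exact h hM

theorem finite_of_quot_bot (h : Finite (V ⧸ (⊥ : Submodule k V))) : Finite V :=
  Finite.of_equiv _ ((Submodule.quotEquivOfEqBot (⊥ : Submodule k V) rfl).toEquiv)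

/-- the finite index topology is not complete -/
theorem not_complete [Finite k] [Infinite V] :
    ¬ IsCompleteRingTopology (finiteIndexTopology k V) := by
  intro hc
  let b := Module.Basis.ofVectorSpace k V
  set ι := Module.Basis.ofVectorSpaceIndex k V
  have hι : Infinite ι := by
    by_contra hfin
    rw [not_infinite_iff_finite] at hfin
    have : Module.Finite k V := Module.Finite.of_basis b
    have : Finite V := Module.finite_of_finite k
    exact not_finite V
  let U : Ultrafilter ι := Filter.hyperfilter ι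
  let F : Filter (Tri k V) := Filter.map (fun i => inc (b i)) (U : Filter ι)
  have hFne : F.NeBot := Filter.map_neBot
  obtain ⟨x, hx⟩ := hc F hFne (by
    intro W hW
    obtain ⟨M, hM, hMW⟩ := (isFamily_finite (k := k) (V := V)).mem_nhds.1 hW
    have : Finite (V ⧸ M) := hM
    have hcov : (⋃ q ∈ (Set.univ : Set (V ⧸ M)), {i : ι | M.mkQ (b i) = q}) ∈ U := by
      have : (⋃ q ∈ (Set.univ : Set (V ⧸ M)), {i : ι | M.mkQ (b i) = q}) = Set.univ := by
        ext i
        simp
      rw [this]
      exact Filter.univ_mem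
    rw [Ultrafilter.finite_biUnion_mem_iff Set.finite_univ] at hcov
    obtain ⟨q, -, hq⟩ := hcov
    refine ⟨(fun i => inc (b i)) '' {i : ι | M.mkQ (b i) = q}, Filter.image_mem_map hq, ?_⟩
    rintro _ ⟨i, hi, rfl⟩ _ ⟨j, hj, rfl⟩
    apply hMW
    rw [← inc_sub]
    refine inc_mem_B.2 ?_
    rw [← Submodule.Quotient.mk_eq_zero M, ← Submodule.mkQ_apply, map_sub, hi, hj, sub_self])
  letI t := finiteIndexTopology k V
  have htr : IsTopologicalRing (Tri k V) := (isFamily_finite (k := k) (V := V)).isTopologicalRing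
  have key : ∀ M : Submodule k V, Finite (V ⧸ M) → ∀ᶠ i in (U : Filter ι), inc (b i) - x ∈ B M := by
    intro M hM
    have h1 : (B M : Set (Tri k V)) ∈ 𝓝 (0 : Tri k V) :=
      (isFamily_finite (k := k) (V := V)).mem_nhds.2 ⟨M, hM, subset_rfl⟩
    have h2 : (fun y => y - x) ⁻¹' (B M : Set (Tri k V)) ∈ 𝓝 x := by
      have hcont : Continuous fun y : Tri k V => y - x := continuous_id.sub continuous_const
      apply hcont.continuousAt.preimage_mem_nhds
      rw [sub_self]
      exact h1
    exact hx h2
  have hcoord : ∀ φ : Module.Dual k V, ∀ᶠ i in (U : Filter ι), φ (b i) = φ x.v := by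
    intro φ
    filter_upwards [key (LinearMap.ker φ) (finite_quot_ker φ)] with i hi
    have h3 : φ ((inc (b i) - x : Tri k V)).v = 0 := hi.2.2
    rw [sub_v, inc_v, map_sub] at h3
    exact sub_eq_zero.1 h3
  have hx0 : x.v = 0 := by
    apply b.repr.injective
    rw [map_zero]
    ext j
    have h4 := hcoord (b.coord j)
    have h5 : ∀ᶠ i in (U : Filter ι), i ≠ j := by
      have : ({j} : Set ι)ᶜ ∈ (Filter.cofinite : Filter ι) := (Set.finite_singleton j).compl_mem_cofinite
      exact Filter.hyperfilter_le_cofinite this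
    obtain ⟨i, hi1, hi2⟩ := (h4.and h5).exists
    rw [Module.Basis.coord_apply, Module.Basis.repr_self, Finsupp.single_eq_of_ne (Ne.symm hi2)] at hi1
    rw [Module.Basis.coord_apply] at hi1
    rw [← hi1]; rfl
  have h6 := hcoord (b.constr k (fun _ => (1 : k)))
  obtain ⟨i, hi⟩ := h6.exists
  rw [Module.Basis.constr_basis, hx0, map_zero] at hi
  exact one_ne_zero hi

/-- If the sets `T` and `W` are given, some operator maps every nonzero vector outside `W`,
provided that every finite set can be translated outside the saturation of `W`. -/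
theorem exists_op [Finite k] (b : Module.Basis ℕ k V) (W : Set V)
    (h : ∀ F : Finset V, ∃ v : V, ∀ f ∈ F, ∀ c : k, c ≠ 0 → c • (f + v) ∉ W) :
    ∃ g : Module.End k V, ∀ v, v ≠ 0 → g v ∉ W := by
  classical
  have : Fintype k := Fintype.ofFinite k
  choose pick hpick using h
  let T : ℕ → Finset V := fun n =>
    Nat.rec {0} (fun _ T => (T ×ˢ (Finset.univ : Finset k)).image
      (fun p => p.1 + p.2 • pick T)) n
  have hTs : ∀ n, T (n + 1) = (T n ×ˢ (Finset.univ : Finset k)).image
      (fun p => p.1 + p.2 • pick (T n)) := fun n => rfl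
  have hTsc : ∀ n, ∀ x ∈ T n, ∀ c : k, c • x ∈ T n := by
    intro n
    induction n with
    | zero =>
      intro x hx c
      have hx' : x = 0 := Finset.mem_singleton.1 hx
      subst hx'
      rw [smul_zero]
      exact hx
    | succ n ih =>
      intro x hx c
      rw [hTs, Finset.mem_image] at hx ⊢
      obtain ⟨⟨y, a⟩, hy, rfl⟩ := hx
      rw [Finset.mem_product] at hy
      refine ⟨(c • y, c * a), Finset.mem_product.2 ⟨ih y hy.1 c, Finset.mem_univ _⟩, ?_⟩
      simp only [smul_add, smul_smul]
  let g : Module.End k V := b.constr k (fun n => pick (T n))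
  have key : ∀ n (v : V), (∀ i, n ≤ i → b.repr v i = 0) → g v ∈ T n ∧ (v ≠ 0 → g v ∉ W) := by
    intro n
    induction n with
    | zero =>
      intro v hv
      have : v = 0 := by
        apply b.repr.injective
        rw [map_zero]
        exact Finsupp.ext fun i => hv i (Nat.zero_le i)
      subst this
      exact ⟨by rw [map_zero]; exact Finset.mem_singleton_self _, fun h => absurd rfl h⟩
    | succ n ih =>
      intro v hv
      set a : k := b.repr v n with ha
      let v' : V := v - a • b n
      have hv' : v = v' + a • b n := (sub_add_cancel _ _).symm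
      have h1 : ∀ i, n ≤ i → b.repr v' i = 0 := by
        intro i hi
        have h2 : b.repr v' i = b.repr v i - a * (Finsupp.single n (1 : k)) i := by
          show b.repr (v - a • b n) i = _
          rw [map_sub, map_smul, Module.Basis.repr_self, Finsupp.sub_apply, Finsupp.smul_apply,
            smul_eq_mul]
        rw [h2]
        rcases Nat.eq_or_lt_of_le hi with h | h
        · subst h
          rw [Finsupp.single_eq_same, mul_one, ← ha, sub_self]
        · rw [Finsupp.single_eq_of_ne (by omega), hv i h, mul_zero, sub_zero]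
      obtain ⟨h2, h3⟩ := ih v' h1
      have hg : g v = g v' + a • pick (T n) := by
        conv_lhs => rw [hv', map_add, map_smul]
        congr 2
        exact b.constr_basis k _ n
      refine ⟨?_, ?_⟩
      · rw [hTs, hg]
        exact Finset.mem_image.2 ⟨(g v', a), Finset.mem_product.2 ⟨h2, Finset.mem_univ _⟩, rfl⟩
      · intro hv0
        by_cases ha0 : a = 0
        · have : v' = v := by
            show v - a • b n = v
            rw [ha0, zero_smul, sub_zero]
          rw [this] at h3
          exact h3 hv0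
        · have h4 := hpick (T n) (a⁻¹ • g v') (hTsc n _ h2 _) a ha0
          rw [smul_add, smul_smul, mul_inv_cancel₀ ha0, one_smul, ← hg] at h4
          exact h4
  refine ⟨g, fun v hv => ?_⟩
  refine (key ((b.repr v).support.sup id + 1) v ?_).2 hv
  intro i hi
  by_contra hne
  have : i ≤ (b.repr v).support.sup id :=
    Finset.le_sup (f := id) (Finsupp.mem_support_iff.2 hne)
  omega

/-- In a non-discrete ring topology with the ideal `V` open, finitely many translates of the trace
on `V` of a neighbourhood of zero cover `V`. -/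
theorem syndetic [Finite k] (b : Module.Basis ℕ k V) (t : TopologicalSpace (Tri k V))
    (ht : @IsTopologicalRing (Tri k V) t _)
    (hB : Set.range (inc : V → Tri k V) ∈ @nhds (Tri k V) t 0) (hd : t ≠ ⊥) (W : Set (Tri k V))
    (hW : W ∈ @nhds (Tri k V) t 0) : ∃ F : Finset V, ∀ v : V, ∃ f ∈ F, inc (f + v) ∈ W := by
  by_contra hcon
  push Not at hcon
  let _ := t
  let W1 : Set (Tri k V) := {x | ∀ c : k, op (c • (1 : Module.End k V)) * x ∈ W}
  have hmul : ∀ g : Module.End k V, (fun x : Tri k V => op g * x) ⁻¹' W ∈ 𝓝 (0 : Tri k V) := by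
    intro g
    have hcont : Continuous fun x : Tri k V => op g * x := continuous_const.mul continuous_id
    apply hcont.continuousAt.preimage_mem_nhds
    rw [mul_zero]
    exact hW
  have hW1 : W1 ∈ 𝓝 (0 : Tri k V) := by
    have : W1 = ⋂ c : k, (fun x : Tri k V => op (c • (1 : Module.End k V)) * x) ⁻¹' W := by
      ext x; simp [W1]
    rw [this]
    exact (Filter.iInter_mem).2 fun c => hmul _
  obtain ⟨g, hg⟩ := exists_op b {v | (inc v : Tri k V) ∈ W1} (by
    intro F
    obtain ⟨v, hv⟩ := hcon F
    refine ⟨v, fun f hf c hc hmem => hv f hf ?_⟩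
    have h1 := hmem c⁻¹
    rw [op_mul_inc] at h1
    simpa [smul_smul, inv_mul_cancel₀ hc] using h1)
  apply hd
  apply IsTopologicalRing.eq_bot_of_mem t ht
  have hcont : Continuous fun x : Tri k V => op g * x := continuous_const.mul continuous_id
  have h1 : (fun x : Tri k V => op g * x) ⁻¹' W1 ∈ 𝓝 (0 : Tri k V) := by
    apply hcont.continuousAt.preimage_mem_nhds
    rw [mul_zero]
    exact hW1
  filter_upwards [h1, hB] with x hx1 hx2
  obtain ⟨v, rfl⟩ := hx2
  by_contra hne
  have hv : v ≠ 0 := fun h0 => hne (by rw [h0]; rfl)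
  apply hg v hv
  show inc (g v) ∈ W1
  rw [← op_mul_inc]
  exact hx1

/-- every neighbourhood of zero contains a subspace of finite index of `V` -/
theorem coarse [Finite k] (b : Module.Basis ℕ k V) (t : TopologicalSpace (Tri k V))
    (ht : @IsTopologicalRing (Tri k V) t _)
    (hB : Set.range (inc : V → Tri k V) ∈ @nhds (Tri k V) t 0) (hd : t ≠ ⊥) (W : Set (Tri k V))
    (hW : W ∈ @nhds (Tri k V) t 0) :
    ∃ M : Submodule k V, Finite (V ⧸ M) ∧ (B M : Set (Tri k V)) ⊆ W := by
  classical
  let _ := t
  obtain ⟨W1, hW1, h1⟩ := exists_nhds_half_neg hW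
  obtain ⟨W2, hW2, h2⟩ : ∃ W2 ∈ 𝓝 (0 : Tri k V), ∀ x ∈ W2, ∀ y ∈ W2, x + y ∈ W1 := by
    obtain ⟨V', hV', h⟩ := exists_nhds_zero_half hW1
    exact ⟨V', hV', h⟩
  obtain ⟨F, hF⟩ := syndetic b t ht hB hd W2 hW2
  obtain ⟨M, hM, hMW⟩ := exists_submodule (k := k) {v : V | (inc v : Tri k V) ∈ W2}
    (F.image fun f => -f) (by
      intro v
      obtain ⟨f, hf, hfv⟩ := hF v
      refine ⟨-f, Finset.mem_image_of_mem _ hf, ?_⟩
      show inc (v - -f) ∈ W2
      rwa [sub_neg_eq_add, add_comm])
  refine ⟨M, hM, fun x hx => ?_⟩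
  obtain ⟨a, ha, b', hb, c, hc, d, hd', h⟩ := hMW x.v hx.2.2
  rw [eq_inc_of_mem hx, h]
  have h3 : (inc (a + b' - c - d) : Tri k V) = (inc a + inc b') - (inc c + inc d) := by
    rw [sub_sub, inc_sub, inc_add, inc_add]
  rw [h3]
  exact h1 _ (h2 _ ha _ hb) _ (h2 _ hc _ hd')

end Pool.Agent.Y561.MT
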